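import Pool.Agent.Helper47.RFn.Alg

/-!
# Project RFn (`MP_c98eff_gt`), packet BS

Strict quarter pinching gives positive complex sectional curvature, quantitatively.
-/

namespace Pool.Agent.Helper47.RFn

open Finset

namespace BSaux

variable {n : ℕ}

/-- The quadrilinear form of a tensor. -/
def G (R : T4 n) (x y z w : Fin n → ℝ) : ℝ :=
  ∑ a, ∑ b, ∑ c, ∑ d, R a b c d * x a * y b * z c * w d

theorem K2_eq (R : T4 n) (u v : Fin n → ℝ) : K2 R u v = G R u v u v := rfl

theorem sum_pair {M : Type*} [AddCommMonoid M] (f : Fin n → Fin n → Fin n → Fin n → M) :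
    ∑ a, ∑ b, ∑ c, ∑ d, f a b c d = ∑ c, ∑ d, ∑ a, ∑ b, f a b c d := by
  calc ∑ a, ∑ b, ∑ c, ∑ d, f a b c d = ∑ a, ∑ c, ∑ b, ∑ d, f a b c d :=
        sum_congr rfl fun a _ => sum_comm
    _ = ∑ c, ∑ a, ∑ b, ∑ d, f a b c d := sum_comm
    _ = ∑ c, ∑ a, ∑ d, ∑ b, f a b c d :=
        sum_congr rfl fun c _ => sum_congr rfl fun a _ => sum_comm
    _ = ∑ c, ∑ d, ∑ a, ∑ b, f a b c d := sum_congr rfl fun c _ => sum_comm

theorem sum_rot {M : Type*} [AddCommMonoid M] (f : Fin n → Fin n → Fin n → M) :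
    ∑ a, ∑ b, ∑ c, f a b c = ∑ a, ∑ b, ∑ c, f b c a := by
  calc ∑ b, ∑ c, ∑ a, f b c a = ∑ b, ∑ a, ∑ c, f b c a := sum_congr rfl fun b _ => sum_comm
    _ = ∑ a, ∑ b, ∑ c, f b c a := sum_comm

theorem G_a12 {R : T4 n} (hR : IsCurv R) (x y z w : Fin n → ℝ) :
    G R x y z w = - G R y x z w := by
  have e : G R y x z w = ∑ a, ∑ b, ∑ c, ∑ d, R b a c d * y b * x a * z c * w d := sum_comm
  rw [e]
  unfold G
  simp only [← sum_neg_distrib]
  refine sum_congr rfl fun a _ => sum_congr rfl fun b _ => sum_congr rfl fun c _ =>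
    sum_congr rfl fun d _ => ?_
  rw [hR.a12 a b c d]
  ring

theorem G_pair {R : T4 n} (hR : IsCurv R) (x y z w : Fin n → ℝ) :
    G R x y z w = G R z w x y := by
  unfold G
  rw [sum_pair]
  refine sum_congr rfl fun a _ => sum_congr rfl fun b _ => sum_congr rfl fun c _ =>
    sum_congr rfl fun d _ => ?_
  rw [hR.pair c d a b]
  ring

theorem G_a34 {R : T4 n} (hR : IsCurv R) (x y z w : Fin n → ℝ) :
    G R x y z w = - G R x y w z := by
  rw [G_pair hR x y z w, G_a12 hR z w x y, G_pair hR w z x y]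

theorem G_bian {R : T4 n} (hR : IsCurv R) (x y z w : Fin n → ℝ) :
    G R x y z w + G R y z x w + G R z x y w = 0 := by
  have e1 : G R y z x w = ∑ a, ∑ b, ∑ c, ∑ d, R b c a d * y b * z c * x a * w d :=
    sum_rot (fun a b c => ∑ d, R a b c d * y a * z b * x c * w d)
  have e2 : G R z x y w = ∑ a, ∑ b, ∑ c, ∑ d, R c a b d * z c * x a * y b * w d := by
    have h := sum_rot (fun a b c => ∑ d, R a b c d * z a * x b * y c * w d)
    have h' := sum_rot (fun a b c => ∑ d, R b c a d * z b * x c * y a * w d)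
    exact h.trans h'
  rw [e1, e2]
  unfold G
  simp only [← sum_add_distrib]
  refine sum_eq_zero fun a _ => sum_eq_zero fun b _ => sum_eq_zero fun c _ =>
    sum_eq_zero fun d _ => ?_
  have h := hR.bian a b c d
  linear_combination (x a * y b * z c * w d) * h

theorem G_add2 (R : T4 n) (x y y' z w : Fin n → ℝ) (c : ℝ) :
    G R x (fun k => y k + c * y' k) z w = G R x y z w + c * G R x y' z w := by
  unfold G
  simp only [mul_sum, ← sum_add_distrib]
  refine sum_congr rfl fun a _ => sum_congr rfl fun b _ => sum_congr rfl fun c _ =>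
    sum_congr rfl fun d _ => ?_
  ring

theorem G_add4 (R : T4 n) (x y z w w' : Fin n → ℝ) (c : ℝ) :
    G R x y z (fun k => w k + c * w' k) = G R x y z w + c * G R x y z w' := by
  unfold G
  simp only [mul_sum, ← sum_add_distrib]
  refine sum_congr rfl fun a _ => sum_congr rfl fun b _ => sum_congr rfl fun c _ =>
    sum_congr rfl fun d _ => ?_
  ring

theorem K2_add {R : T4 n} (hR : IsCurv R) (v y : Fin n → ℝ) (c : ℝ) :
    K2 R v (fun k => y k + c * v k) = K2 R v y := by
  have h0 : ∀ z w : Fin n → ℝ, G R v v z w = 0 := by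
    intro z w
    have := G_a12 hR v v z w
    linarith
  have h1 : ∀ y : Fin n → ℝ, G R v y v v = 0 := by
    intro y
    rw [G_pair hR]
    exact h0 _ _
  rw [K2_eq, K2_eq, G_add2, G_add4, G_add4, h1, h0, h0]
  ring

theorem K2_scale (R : T4 n) (v y : Fin n → ℝ) (t : ℝ) :
    K2 R v (fun k => t * y k) = t ^ 2 * K2 R v y := by
  unfold K2
  simp only [mul_sum]
  refine sum_congr rfl fun a _ => sum_congr rfl fun b _ => sum_congr rfl fun c _ =>
    sum_congr rfl fun d _ => ?_
  ring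

/-- Two-sided bounds for non-normalised second vectors. -/
theorem K2_bound {R : T4 n} (hR : IsCurv R) {m M : ℝ}
    (hb : ∀ u v : Fin n → ℝ, nrm u = 1 → nrm v = 1 → ∑ i, u i * v i = 0 →
      m ≤ K2 R u v ∧ K2 R u v ≤ M)
    (v y : Fin n → ℝ) (hv : nrm v = 1) :
    m * (nrm y - (∑ i, v i * y i) ^ 2) ≤ K2 R v y ∧
      K2 R v y ≤ M * (nrm y - (∑ i, v i * y i) ^ 2) := by
  obtain ⟨s, hs⟩ : ∃ s, s = ∑ i, v i * y i := ⟨_, rfl⟩
  rw [← hs]
  -- the orthogonal part
  obtain ⟨u, hu⟩ : ∃ u : Fin n → ℝ, u = fun k => y k + (-s) * v k := ⟨_, rfl⟩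
  have hvv : ∑ i, v i * v i = 1 := by
    rw [← hv]
    exact sum_congr rfl fun i _ => by ring
  have hvu : ∑ i, v i * u i = 0 := by
    have e : ∑ i, v i * u i = ∑ i, v i * y i + (-s) * ∑ i, v i * v i := by
      rw [mul_sum, ← sum_add_distrib]
      exact sum_congr rfl fun i _ => by rw [hu]; ring
    rw [e, hvv, ← hs]
    ring
  have hnu : nrm u = nrm y - s ^ 2 := by
    have e : nrm u = nrm y + (-2 * s) * ∑ i, v i * y i + s ^ 2 * ∑ i, v i * v i := by
      unfold nrm
      rw [mul_sum, mul_sum, ← sum_add_distrib, ← sum_add_distrib]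
      exact sum_congr rfl fun i _ => by rw [hu]; ring
    rw [e, hvv, ← hs]
    ring
  have hK : K2 R v y = K2 R v u := by rw [hu, K2_add hR]
  rw [hK, ← hnu]
  have hn0 : 0 ≤ nrm u := sum_nonneg fun i _ => sq_nonneg _
  obtain ⟨t, ht⟩ : ∃ t, t = Real.sqrt (nrm u) := ⟨_, rfl⟩
  have ht2 : t ^ 2 = nrm u := by rw [ht, Real.sq_sqrt hn0]
  rcases eq_or_ne t 0 with h0 | h0
  · have hu0 : nrm u = 0 := by rw [← ht2, h0]; ring
    have hz : ∀ k, u k = 0 := by
      intro k
      have := (sum_eq_zero_iff_of_nonneg (fun i _ => sq_nonneg (u i))).1 hu0 k (mem_univ k)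
      exact pow_eq_zero_iff (two_ne_zero) |>.1 this
    have hK0 : K2 R v u = 0 := by
      unfold K2
      refine sum_eq_zero fun a _ => sum_eq_zero fun b _ => sum_eq_zero fun c _ =>
        sum_eq_zero fun d _ => ?_
      rw [hz b]
      ring
    rw [hK0, hu0]
    simp
  · have hw := hb v (fun k => t⁻¹ * u k) hv
      (by
        have e : nrm (fun k => t⁻¹ * u k) = (t⁻¹) ^ 2 * nrm u := by
          unfold nrm
          rw [mul_sum]
          exact sum_congr rfl fun i _ => by ring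
        rw [e, ← ht2]
        field_simp)
      (by
        have e : ∑ i, v i * (t⁻¹ * u i) = t⁻¹ * ∑ i, v i * u i := by
          rw [mul_sum]
          exact sum_congr rfl fun i _ => by ring
        rw [e, hvu, mul_zero])
    have e : K2 R v u = t ^ 2 * K2 R v (fun k => t⁻¹ * u k) := by
      rw [K2_scale]
      field_simp
    rw [e, ← ht2]
    have h2 : 0 ≤ t ^ 2 := sq_nonneg t
    constructor
    · nlinarith [hw.1]
    · nlinarith [hw.2]

/-- The basis vector. -/
def bv (b : Fin n) : Fin n → ℝ := fun k => if k = b then 1 else 0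

theorem nrm_bv (b : Fin n) : nrm (bv b) = 1 := by
  unfold nrm bv
  simp

theorem K2_bv (R : T4 n) (v : Fin n → ℝ) (b : Fin n) :
    K2 R v (bv b) = ∑ a, ∑ c, R a b c b * v a * v c := by
  unfold K2 bv
  simp

theorem ric_sum (R : T4 n) (v : Fin n → ℝ) : rq (Ric R) v = ∑ b, K2 R v (bv b) := by
  simp only [K2_bv]
  unfold rq Ric
  have e : ∑ b, ∑ a, ∑ c, R a b c b * v a * v c = ∑ a, ∑ c, ∑ b, R a b c b * v a * v c := by
    rw [sum_comm]
    exact sum_congr rfl fun a _ => sum_comm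
  rw [e]
  refine sum_congr rfl fun a _ => sum_congr rfl fun c _ => ?_
  rw [sum_mul, sum_mul]

theorem ric_bound {R : T4 n} (hR : IsCurv R) {m M : ℝ}
    (hb : ∀ u v : Fin n → ℝ, nrm u = 1 → nrm v = 1 → ∑ i, u i * v i = 0 →
      m ≤ K2 R u v ∧ K2 R u v ≤ M) (v : Fin n → ℝ) (hv : nrm v = 1) :
    m * ((n : ℝ) - 1) ≤ rq (Ric R) v ∧ rq (Ric R) v ≤ M * ((n : ℝ) - 1) := by
  have hs : ∑ b : Fin n, (nrm (bv b) - (∑ i, v i * bv b i) ^ 2) = (n : ℝ) - 1 := by
    have e : ∀ b : Fin n, nrm (bv b) - (∑ i, v i * bv b i) ^ 2 = 1 - v b ^ 2 := by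
      intro b
      rw [nrm_bv]
      congr 1
      unfold bv
      simp
    simp only [e]
    rw [sum_sub_distrib, sum_const, card_univ, Fintype.card_fin]
    unfold nrm at hv
    rw [hv]
    simp
  rw [ric_sum, ← hs, mul_sum, mul_sum]
  exact ⟨sum_le_sum fun b _ => (K2_bound hR hb v (bv b) hv).1,
    sum_le_sum fun b _ => (K2_bound hR hb v (bv b) hv).2⟩

theorem rq_bv (A : M2 n) (b : Fin n) : rq A (bv b) = A b b := by
  unfold rq bv
  simp

theorem rq_scale (A : M2 n) (v : Fin n → ℝ) (t : ℝ) :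
    rq A (fun k => t * v k) = t ^ 2 * rq A v := by
  unfold rq
  simp only [mul_sum]
  exact sum_congr rfl fun a _ => sum_congr rfl fun b _ => by ring

theorem nrm_scale (v : Fin n → ℝ) (t : ℝ) : nrm (fun k => t * v k) = t ^ 2 * nrm v := by
  unfold nrm
  rw [mul_sum]
  exact sum_congr rfl fun a _ => by ring

theorem ric_low {R : T4 n} {c : ℝ} (h : ∀ v, nrm v = 1 → c ≤ rq (Ric R) v)
    (v : Fin n → ℝ) : c * nrm v ≤ rq (Ric R) v := by
  have hn0 : 0 ≤ nrm v := sum_nonneg fun i _ => sq_nonneg _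
  obtain ⟨t, ht⟩ : ∃ t, t = Real.sqrt (nrm v) := ⟨_, rfl⟩
  have ht2 : t ^ 2 = nrm v := by rw [ht, Real.sq_sqrt hn0]
  rcases eq_or_ne t 0 with h0 | h0
  · have hu0 : nrm v = 0 := by rw [← ht2, h0]; ring
    have hz : ∀ k, v k = 0 := by
      intro k
      have := (sum_eq_zero_iff_of_nonneg (fun i _ => sq_nonneg (v i))).1 hu0 k (mem_univ k)
      exact pow_eq_zero_iff (two_ne_zero) |>.1 this
    have hK0 : rq (Ric R) v = 0 := by
      unfold rq
      refine sum_eq_zero fun a _ => sum_eq_zero fun b _ => ?_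
      rw [hz b]
      ring
    rw [hK0, hu0]
    simp
  · have h1 := h (fun k => t⁻¹ * v k) (by
      rw [nrm_scale, ← ht2]
      field_simp)
    have e : rq (Ric R) v = t ^ 2 * rq (Ric R) (fun k => t⁻¹ * v k) := by
      rw [rq_scale]
      field_simp
    rw [e, ← ht2]
    have h2 : 0 ≤ t ^ 2 := sq_nonneg t
    nlinarith

/-- The form in terms of the components of `z ∧ w`. -/
theorem qf_wedge {R : T4 n} (hR : IsCurv R) (z w : Fin n → ℂ) :
    qf R z w = (1 / 4) * (∑ a, ∑ b, ∑ c, ∑ d, (R a b c d : ℂ) * (z a * w b - z b * w a)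
      * star (z c * w d - z d * w c)).re := by
  obtain ⟨S, hS⟩ : ∃ S : ℂ, S = ∑ a, ∑ b, ∑ c, ∑ d, (R a b c d : ℂ) * z a * w b * star (z c)
    * star (w d) := ⟨_, rfl⟩
  have e1 : ∑ a, ∑ b, ∑ c, ∑ d, (R a b c d : ℂ) * z b * w a * star (z c) * star (w d) = -S := by
    have e : ∑ a, ∑ b, ∑ c, ∑ d, (R a b c d : ℂ) * z b * w a * star (z c) * star (w d)
        = ∑ a, ∑ b, ∑ c, ∑ d, (R b a c d : ℂ) * z a * w b * star (z c) * star (w d) := sum_comm
    rw [e, hS]
    simp only [← sum_neg_distrib]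
    refine sum_congr rfl fun a _ => sum_congr rfl fun b _ => sum_congr rfl fun c _ =>
      sum_congr rfl fun d _ => ?_
    rw [hR.a12 b a c d]
    push_cast
    ring
  have e2 : ∑ a, ∑ b, ∑ c, ∑ d, (R a b c d : ℂ) * z a * w b * star (z d) * star (w c) = -S := by
    have e : ∑ a, ∑ b, ∑ c, ∑ d, (R a b c d : ℂ) * z a * w b * star (z d) * star (w c)
        = ∑ a, ∑ b, ∑ c, ∑ d, (R a b d c : ℂ) * z a * w b * star (z c) * star (w d) :=
      sum_congr rfl fun a _ => sum_congr rfl fun b _ => sum_comm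
    rw [e, hS]
    simp only [← sum_neg_distrib]
    refine sum_congr rfl fun a _ => sum_congr rfl fun b _ => sum_congr rfl fun c _ =>
      sum_congr rfl fun d _ => ?_
    rw [hR.a34 a b d c]
    push_cast
    ring
  have e3 : ∑ a, ∑ b, ∑ c, ∑ d, (R a b c d : ℂ) * z b * w a * star (z d) * star (w c) = S := by
    have e : ∑ a, ∑ b, ∑ c, ∑ d, (R a b c d : ℂ) * z b * w a * star (z d) * star (w c)
        = ∑ a, ∑ b, ∑ c, ∑ d, (R a b d c : ℂ) * z b * w a * star (z c) * star (w d) :=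
      sum_congr rfl fun a _ => sum_congr rfl fun b _ => sum_comm
    have e' : ∑ a, ∑ b, ∑ c, ∑ d, (R a b d c : ℂ) * z b * w a * star (z c) * star (w d)
        = -∑ a, ∑ b, ∑ c, ∑ d, (R a b c d : ℂ) * z b * w a * star (z c) * star (w d) := by
      simp only [← sum_neg_distrib]
      refine sum_congr rfl fun a _ => sum_congr rfl fun b _ => sum_congr rfl fun c _ =>
        sum_congr rfl fun d _ => ?_
      rw [hR.a34 a b d c]
      push_cast
      ring
    rw [e, e', e1, neg_neg]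
  have e4 : (∑ a, ∑ b, ∑ c, ∑ d, (R a b c d : ℂ) * (z a * w b - z b * w a)
      * star (z c * w d - z d * w c)) = 4 * S := by
    have e : (∑ a, ∑ b, ∑ c, ∑ d, (R a b c d : ℂ) * (z a * w b - z b * w a)
        * star (z c * w d - z d * w c))
        = (∑ a, ∑ b, ∑ c, ∑ d, (R a b c d : ℂ) * z a * w b * star (z c) * star (w d))
          - (∑ a, ∑ b, ∑ c, ∑ d, (R a b c d : ℂ) * z b * w a * star (z c) * star (w d))
          - (∑ a, ∑ b, ∑ c, ∑ d, (R a b c d : ℂ) * z a * w b * star (z d) * star (w c))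
          + (∑ a, ∑ b, ∑ c, ∑ d, (R a b c d : ℂ) * z b * w a * star (z d) * star (w c)) := by
      simp only [← sum_add_distrib, ← sum_sub_distrib]
      refine sum_congr rfl fun a _ => sum_congr rfl fun b _ => sum_congr rfl fun c _ =>
        sum_congr rfl fun d _ => ?_
      rw [star_sub, star_mul', star_mul']
      ring
    rw [e, e1, e2, e3, ← hS]
    ring
  rw [e4]
  unfold qf
  rw [← hS]
  have : (4 * S).re = 4 * S.re := by simp
  rw [this]
  ring

/-- Change of basis. -/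
theorem qf_basis {R : T4 n} (hR : IsCurv R) (z w z' w' : Fin n → ℂ) (α β γ δ : ℂ)
    (hz : ∀ k, z k = α * z' k + β * w' k) (hw : ∀ k, w k = γ * z' k + δ * w' k) :
    qf R z w = Complex.normSq (α * δ - β * γ) * qf R z' w' := by
  rw [qf_wedge hR, qf_wedge hR]
  have e : (∑ a, ∑ b, ∑ c, ∑ d, (R a b c d : ℂ) * (z a * w b - z b * w a)
      * star (z c * w d - z d * w c))
      = (Complex.normSq (α * δ - β * γ) : ℂ) *
        (∑ a, ∑ b, ∑ c, ∑ d, (R a b c d : ℂ) * (z' a * w' b - z' b * w' a)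
      * star (z' c * w' d - z' d * w' c)) := by
    simp only [mul_sum]
    refine sum_congr rfl fun a _ => sum_congr rfl fun b _ => sum_congr rfl fun c _ =>
      sum_congr rfl fun d _ => ?_
    have h1 : ∀ a b, z a * w b - z b * w a = (α * δ - β * γ) * (z' a * w' b - z' b * w' a) := by
      intro a b
      rw [hz, hz, hw, hw]
      ring
    rw [h1, h1, star_mul', Complex.normSq_eq_conj_mul_self]
    simp only [starRingEnd_apply]
    ring
  rw [e, Complex.re_ofReal_mul]
  ring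

theorem id_contract (a b : Fin n) (X : Fin n → Fin n → ℂ) :
    ∑ c, ∑ d, (Id4 n a b c d : ℂ) * X c d = X a b - X b a := by
  have e1 : ∀ c d, (Id4 n a b c d : ℂ) = (if a = c then (1:ℂ) else 0) * (if b = d then (1:ℂ) else 0)
      - (if b = c then (1:ℂ) else 0) * (if a = d then (1:ℂ) else 0) := by
    intro c d
    simp only [Id4, wdg, Matrix.one_apply]
    split_ifs <;> norm_num
  have e2 : ∑ c, ∑ d, (Id4 n a b c d : ℂ) * X c d
      = (∑ c, ∑ d, (if a = c then (1:ℂ) else 0) * (if b = d then (1:ℂ) else 0) * X c d)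
        - ∑ c, ∑ d, (if b = c then (1:ℂ) else 0) * (if a = d then (1:ℂ) else 0) * X c d := by
    simp only [← sum_sub_distrib]
    refine sum_congr rfl fun c _ => sum_congr rfl fun d _ => ?_
    rw [e1]
    ring
  rw [e2]
  congr 1 <;> simp

theorem id_real (x y z w : Fin n → ℝ) :
    G (Id4 n) x y z w = (∑ k, x k * z k) * (∑ k, y k * w k) - (∑ k, x k * w k) * (∑ k, y k * z k) := by
  have e1 : ∀ a b c d, Id4 n a b c d = (if a = c then (1:ℝ) else 0) * (if b = d then (1:ℝ) else 0)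
      - (if b = c then (1:ℝ) else 0) * (if a = d then (1:ℝ) else 0) := by
    intro a b c d
    simp only [Id4, wdg, Matrix.one_apply]
    ring
  have e0 : ∀ a b, ∑ c, ∑ d, Id4 n a b c d * x a * y b * z c * w d
      = x a * y b * z a * w b - x a * y b * z b * w a := by
    intro a b
    have e2 : ∑ c, ∑ d, Id4 n a b c d * x a * y b * z c * w d
        = (∑ c, ∑ d, (if a = c then (1:ℝ) else 0) * (if b = d then (1:ℝ) else 0)
            * (x a * y b * z c * w d))
          - ∑ c, ∑ d, (if b = c then (1:ℝ) else 0) * (if a = d then (1:ℝ) else 0)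
            * (x a * y b * z c * w d) := by
      simp only [← sum_sub_distrib]
      refine sum_congr rfl fun c _ => sum_congr rfl fun d _ => ?_
      rw [e1]
      ring
    rw [e2]
    congr 1 <;> simp
  unfold G
  simp only [e0, sum_sub_distrib]
  rw [sum_mul_sum, sum_mul_sum]
  congr 1
  · exact sum_congr rfl fun a _ => sum_congr rfl fun b _ => by ring
  · exact sum_congr rfl fun a _ => sum_congr rfl fun b _ => by ring

theorem qf_zero {R : T4 n} (hR : IsCurv R) (hI : IsCurv (Id4 n)) (z w : Fin n → ℂ)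
    (h : qf (Id4 n) z w = 0) : qf R z w = 0 := by
  rw [qf_wedge hI] at h
  have e : (∑ a, ∑ b, ∑ c, ∑ d, (Id4 n a b c d : ℂ) * (z a * w b - z b * w a)
      * star (z c * w d - z d * w c))
      = ((∑ a, ∑ b, 2 * Complex.normSq (z a * w b - z b * w a) : ℝ) : ℂ) := by
    push_cast
    refine sum_congr rfl fun a _ => sum_congr rfl fun b _ => ?_
    have e1 : (∑ c, ∑ d, (Id4 n a b c d : ℂ) * (z a * w b - z b * w a)
        * star (z c * w d - z d * w c))
        = ∑ c, ∑ d, (Id4 n a b c d : ℂ) * ((z a * w b - z b * w a)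
        * star (z c * w d - z d * w c)) :=
      sum_congr rfl fun c _ => sum_congr rfl fun d _ => by ring
    rw [e1, id_contract a b (fun c d => (z a * w b - z b * w a) * star (z c * w d - z d * w c)),
      Complex.normSq_eq_conj_mul_self]
    simp only [starRingEnd_apply]
    have e2 : star (z b * w a - z a * w b) = -star (z a * w b - z b * w a) := by
      rw [← star_neg]
      congr 1
      ring
    rw [e2]
    ring
  rw [e, Complex.ofReal_re] at h
  have h1 : ∑ a, ∑ b, 2 * Complex.normSq (z a * w b - z b * w a) = 0 := by linarith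
  have h2 : ∀ a b, z a * w b - z b * w a = 0 := by
    intro a b
    have h3 := (sum_eq_zero_iff_of_nonneg (fun a _ => sum_nonneg fun b _ =>
      mul_nonneg zero_le_two (Complex.normSq_nonneg (z a * w b - z b * w a)))).1 h1 a (mem_univ a)
    have h4 := (sum_eq_zero_iff_of_nonneg (fun b _ =>
      mul_nonneg zero_le_two (Complex.normSq_nonneg (z a * w b - z b * w a)))).1 h3 b (mem_univ b)
    have h5 : Complex.normSq (z a * w b - z b * w a) = 0 := by linarith
    exact Complex.normSq_eq_zero.1 h5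
  rw [qf_wedge hR]
  have e : (∑ a, ∑ b, ∑ c, ∑ d, (R a b c d : ℂ) * (z a * w b - z b * w a)
      * star (z c * w d - z d * w c)) = 0 := by
    refine sum_eq_zero fun a _ => sum_eq_zero fun b _ => sum_eq_zero fun c _ =>
      sum_eq_zero fun d _ => ?_
    rw [h2]
    ring
  rw [e]
  simp

/-- The form on a normal form. -/
theorem qf_normal (R : T4 n) (x x' y y' : Fin n → ℝ) (lm mu : ℝ) :
    qf R (fun k => (x k : ℂ) + Complex.I * lm * x' k) (fun k => (y k : ℂ) + Complex.I * mu * y' k)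
      = G R x y x y + lm ^ 2 * G R x' y x' y + mu ^ 2 * G R x y' x y'
        + lm ^ 2 * mu ^ 2 * G R x' y' x' y'
        - lm * mu * (G R x' y' x y + G R x y x' y') + lm * mu * (G R x' y x y' + G R x y' x' y) := by
  unfold qf G
  simp only [Complex.re_sum, mul_add, mul_sum, ← sum_add_distrib, ← sum_sub_distrib]
  refine sum_congr rfl fun a _ => sum_congr rfl fun b _ => sum_congr rfl fun c _ =>
    sum_congr rfl fun d _ => ?_
  simp only [Complex.star_def, map_add, map_mul, Complex.conj_ofReal, Complex.conj_I,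
    Complex.mul_re, Complex.mul_im, Complex.add_re, Complex.add_im, Complex.ofReal_re,
    Complex.ofReal_im, Complex.I_re, Complex.I_im, Complex.neg_re, Complex.neg_im]
  ring

end BSaux

open BSaux in
/-- **BS.** -/
theorem goal_BS (hBG : Goal_BG) (hNF : Goal_NF) (hCL : Goal_CL) (_hWQ : Goal_WQ) : Goal_BS := by
  intro n hn δ R hδ hδ1 hR hP
  have hn0 : (0 : ℝ) < n := by
    have : 0 < n := by omega
    exact_mod_cast this
  have hn1 : (0 : ℝ) < (n : ℝ) - 1 := by
    have : (4 : ℝ) ≤ n := by exact_mod_cast hn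
    linarith
  have hI : IsCurv (Id4 n) := (hCL n).2.2.1
  -- a reference pair
  obtain ⟨i0, i1, hi⟩ : ∃ i0 i1 : Fin n, i0 ≠ i1 :=
    ⟨⟨0, by omega⟩, ⟨1, by omega⟩, by simp [Fin.ext_iff]⟩
  have hb01 : ∑ i, bv i0 i * bv i1 i = 0 := by
    unfold bv
    simp only [mul_ite, mul_one, mul_zero, sum_ite_eq', mem_univ, if_true]
    exact if_neg (fun h => hi h.symm)
  have hδ0 : 0 < δ := by linarith
  -- the supremum of the sectional curvatures
  obtain ⟨A, hA⟩ : ∃ A : Set ℝ, A = {κ | ∃ u v : Fin n → ℝ, nrm u = 1 ∧ nrm v = 1 ∧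
    ∑ i, u i * v i = 0 ∧ κ = K2 R u v} := ⟨_, rfl⟩
  have hA0 : K2 R (bv i0) (bv i1) ∈ A := by
    rw [hA]
    exact ⟨_, _, nrm_bv _, nrm_bv _, hb01, rfl⟩
  have hAb : BddAbove A := by
    refine ⟨K2 R (bv i0) (bv i1) / δ, ?_⟩
    intro κ hκ
    rw [hA] at hκ
    obtain ⟨u, v, h1, h2, h3, rfl⟩ := hκ
    rw [le_div_iff₀ hδ0, mul_comm]
    exact (hP _ _ _ _ (nrm_bv _) (nrm_bv _) hb01 h1 h2 h3).2
  obtain ⟨M, hM⟩ : ∃ M, M = sSup A := ⟨_, rfl⟩
  have hMpos : 0 < M := by
    have h1 : K2 R (bv i0) (bv i1) ≤ M := by rw [hM]; exact le_csSup hAb hA0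
    exact lt_of_lt_of_le (hP _ _ _ _ (nrm_bv _) (nrm_bv _) hb01 (nrm_bv _) (nrm_bv _) hb01).1 h1
  have hK : ∀ u v : Fin n → ℝ, nrm u = 1 → nrm v = 1 → ∑ i, u i * v i = 0 →
      δ * M ≤ K2 R u v ∧ K2 R u v ≤ M := by
    intro u v h1 h2 h3
    constructor
    · have : M ≤ K2 R u v / δ := by
        rw [hM]
        refine csSup_le ⟨_, hA0⟩ ?_
        intro κ hκ
        rw [hA] at hκ
        obtain ⟨u', v', h1', h2', h3', rfl⟩ := hκ
        rw [le_div_iff₀ hδ0, mul_comm]
        exact (hP _ _ _ _ h1 h2 h3 h1' h2' h3').2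
      rw [le_div_iff₀ hδ0] at this
      linarith
    · rw [hM]
      refine le_csSup hAb ?_
      rw [hA]
      exact ⟨u, v, h1, h2, h3, rfl⟩
  -- scalar curvature
  have hlam : δ * M * ((n : ℝ) - 1) ≤ lam R ∧ lam R ≤ M * ((n : ℝ) - 1) := by
    have h1 : ∀ a : Fin n, δ * M * ((n : ℝ) - 1) ≤ Ric R a a ∧ Ric R a a ≤ M * ((n : ℝ) - 1) := by
      intro a
      rw [← rq_bv (Ric R) a]
      exact ric_bound hR hK (bv a) (nrm_bv a)
    unfold lam
    rw [le_div_iff₀ hn0, div_le_iff₀ hn0]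
    constructor
    · have := sum_le_sum (fun a (_ : a ∈ univ) => (h1 a).1)
      rw [sum_const, card_univ, Fintype.card_fin, nsmul_eq_mul] at this
      linarith
    · have := sum_le_sum (fun a (_ : a ∈ univ) => (h1 a).2)
      rw [sum_const, card_univ, Fintype.card_fin, nsmul_eq_mul] at this
      linarith
  have hlam0 : 0 < lam R := lt_of_lt_of_le (by positivity) hlam.1
  refine ⟨hlam0, ?_, ?_⟩
  · intro v
    have h1 := ric_low (R := R) (c := δ * M * ((n : ℝ) - 1))
      (fun v hv => (ric_bound hR hK v hv).1) v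
    have hnv : 0 ≤ nrm v := sum_nonneg fun i _ => sq_nonneg _
    refine le_trans ?_ h1
    refine mul_le_mul_of_nonneg_right ?_ hnv
    nlinarith [hlam.2]
  · intro z w
    rcases eq_or_ne (qf (Id4 n) z w) 0 with h0 | h0
    · rw [h0, qf_zero hR hI z w h0]
      simp
    · obtain ⟨e, lm, mu, α, β, γ, δ', he, hlm, hmu, hz, hw⟩ := hNF n hn z w h0
      rw [qf_basis hR z w (fun k => (e 0 k : ℂ) + Complex.I * lm * e 1 k)
          (fun k => (e 2 k : ℂ) + Complex.I * mu * e 3 k) α β γ δ' hz hw,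
        qf_basis hI z w (fun k => (e 0 k : ℂ) + Complex.I * lm * e 1 k)
          (fun k => (e 2 k : ℂ) + Complex.I * mu * e 3 k) α β γ δ' hz hw]
      have hs := Complex.normSq_nonneg (α * δ' - β * γ)
      rw [qf_normal R (e 0) (e 1) (e 2) (e 3), qf_normal (Id4 n) (e 0) (e 1) (e 2) (e 3)]
      have hnr : ∀ i, nrm (e i) = 1 := by
        intro i
        have := he i i
        rw [if_pos rfl] at this
        rw [← this]
        exact sum_congr rfl fun k _ => by ring
      have hor : ∀ i j, i ≠ j → ∑ k, e i k * e j k = 0 := by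
        intro i j hij
        rw [he i j, if_neg hij]
      have k02 := (hK (e 0) (e 2) (hnr 0) (hnr 2) (hor 0 2 (by decide))).1
      have k12 := (hK (e 1) (e 2) (hnr 1) (hnr 2) (hor 1 2 (by decide))).1
      have k03 := (hK (e 0) (e 3) (hnr 0) (hnr 3) (hor 0 3 (by decide))).1
      have k13 := (hK (e 1) (e 3) (hnr 1) (hnr 3) (hor 1 3 (by decide))).1
      rw [K2_eq] at k02 k12 k03 k13
      have hB := hBG n R (δ * M) M hR hK e he
      have hB' : |G R (e 0) (e 1) (e 2) (e 3)| ≤ 2 / 3 * (M - δ * M) := hB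
      -- the mixed terms
      have p1 := G_pair hR (e 1) (e 3) (e 0) (e 2)
      have p2 := G_pair hR (e 1) (e 2) (e 0) (e 3)
      have b1 := G_bian hR (e 0) (e 2) (e 1) (e 3)
      have b2 := G_a12 hR (e 1) (e 0) (e 2) (e 3)
      have b3 := G_a12 hR (e 2) (e 1) (e 0) (e 3)
      -- the identity tensor
      have q1 : G (Id4 n) (e 0) (e 2) (e 0) (e 2) = 1 := by
        rw [id_real]; simp [he]
      have q2 : G (Id4 n) (e 1) (e 2) (e 1) (e 2) = 1 := by
        rw [id_real]; simp [he]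
      have q3 : G (Id4 n) (e 0) (e 3) (e 0) (e 3) = 1 := by
        rw [id_real]; simp [he]
      have q4 : G (Id4 n) (e 1) (e 3) (e 1) (e 3) = 1 := by
        rw [id_real]; simp [he]
      have q5 : G (Id4 n) (e 1) (e 3) (e 0) (e 2) = 0 := by
        rw [id_real]; simp [he]
      have q6 : G (Id4 n) (e 0) (e 2) (e 1) (e 3) = 0 := by
        rw [id_real]; simp [he]
      have q7 : G (Id4 n) (e 1) (e 2) (e 0) (e 3) = 0 := by
        rw [id_real]; simp [he]
      have q8 : G (Id4 n) (e 0) (e 3) (e 1) (e 2) = 0 := by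
        rw [id_real]; simp [he]
      rw [q1, q2, q3, q4, q5, q6, q7, q8]
      obtain ⟨g, hg⟩ : ∃ g, g = G R (e 0) (e 1) (e 2) (e 3) := ⟨_, rfl⟩
      rw [← hg] at hB'
      have hmix : - lm * mu * (G R (e 1) (e 3) (e 0) (e 2) + G R (e 0) (e 2) (e 1) (e 3))
          + lm * mu * (G R (e 1) (e 2) (e 0) (e 3) + G R (e 0) (e 3) (e 1) (e 2))
          = -2 * (lm * mu) * g := by
        rw [hg]
        linear_combination (-lm * mu) * p1 - (lm * mu) * p2 - 2 * lm * mu * b1 + 2 * lm * mu * b2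
          + 2 * lm * mu * b3
      have habs : -2 * (lm * mu) * g ≥ -(2 * |lm * mu| * (2 / 3 * (M - δ * M))) := by
        have h1 : |(lm * mu) * g| ≤ |lm * mu| * (2 / 3 * (M - δ * M)) := by
          rw [abs_mul]
          exact mul_le_mul_of_nonneg_left hB' (abs_nonneg _)
        have h2 := (abs_le.1 h1).2
        linarith
      have hP4 : 4 * |lm * mu| ≤ 1 + lm ^ 2 + mu ^ 2 + lm ^ 2 * mu ^ 2 := by
        rw [abs_mul]
        have h1 : |lm| ^ 2 = lm ^ 2 := sq_abs lm
        have h2 : |mu| ^ 2 = mu ^ 2 := sq_abs mu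
        rw [← h1, ← h2]
        nlinarith [sq_nonneg (|lm| - |mu|), sq_nonneg (|lm| * |mu| - 1)]
      have hc : (4 * δ - 1) / (3 * ((n : ℝ) - 1)) * lam R ≤ (4 * δ - 1) / 3 * M := by
        have e : (4 * δ - 1) / (3 * ((n : ℝ) - 1)) * lam R
            = (4 * δ - 1) / 3 * (lam R / ((n : ℝ) - 1)) := by
          field_simp
        rw [e]
        refine mul_le_mul_of_nonneg_left ?_ (by linarith)
        rw [div_le_iff₀ hn1]
        exact hlam.2
      obtain ⟨PP, hPP⟩ : ∃ PP, PP = 1 + lm ^ 2 + mu ^ 2 + lm ^ 2 * mu ^ 2 := ⟨_, rfl⟩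
      have hPP0 : 0 ≤ PP := by rw [hPP]; positivity
      have hPe : 1 + lm ^ 2 * 1 + mu ^ 2 * 1 + lm ^ 2 * mu ^ 2 * 1 - lm * mu * (0 + 0)
          + lm * mu * (0 + 0) = PP := by rw [hPP]; ring
      rw [hPe]
      rw [← hPP] at hP4
      have k1 : lm ^ 2 * (δ * M) ≤ lm ^ 2 * G R (e 1) (e 2) (e 1) (e 2) :=
        mul_le_mul_of_nonneg_left k12 (sq_nonneg _)
      have k2 : mu ^ 2 * (δ * M) ≤ mu ^ 2 * G R (e 0) (e 3) (e 0) (e 3) :=
        mul_le_mul_of_nonneg_left k03 (sq_nonneg _)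
      have k3 : lm ^ 2 * mu ^ 2 * (δ * M) ≤ lm ^ 2 * mu ^ 2 * G R (e 1) (e 3) (e 1) (e 3) :=
        mul_le_mul_of_nonneg_left k13 (by positivity)
      have h4 : (4 * δ - 1) / 3 * M * PP ≤ δ * M * PP - 2 * |lm * mu| * (2 / 3 * (M - δ * M)) := by
        have : 0 ≤ (M - δ * M) / 3 * (PP - 4 * |lm * mu|) :=
          mul_nonneg (by nlinarith) (by linarith)
        linarith
      have h5 : δ * M * PP = δ * M + lm ^ 2 * (δ * M) + mu ^ 2 * (δ * M)
          + lm ^ 2 * mu ^ 2 * (δ * M) := by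
        rw [hPP]; ring
      calc (4 * δ - 1) / (3 * ((n : ℝ) - 1)) * lam R * (Complex.normSq (α * δ' - β * γ) * PP)
          = Complex.normSq (α * δ' - β * γ) *
            ((4 * δ - 1) / (3 * ((n : ℝ) - 1)) * lam R * PP) := by ring
        _ ≤ Complex.normSq (α * δ' - β * γ) * ((4 * δ - 1) / 3 * M * PP) :=
            mul_le_mul_of_nonneg_left (mul_le_mul_of_nonneg_right hc hPP0) hs
        _ ≤ _ := mul_le_mul_of_nonneg_left (by linarith) hs

end Pool.Agent.Helper47.RFn
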