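import Pool.Agent.Helper47.RFn.GoalsB

/-!
# Project RFn (`MP_c98eff_gt`), packet P2: the pinching improves
-/

namespace Pool.Agent.Helper47.RFn

open Finset

namespace P2aux

/-- composition with a smooth function: first derivatives and the heat operator -/
lemma comp_el {n : ℕ} {T : ℝ} (F : FB n T) (hB : F.Base) (φ : ℝ → ℝ) (U : Set ℝ) (hU : IsOpen U)
    (hφ : ContDiffOn ℝ ((⊤ : ℕ∞) : WithTop ℕ∞) φ U) (f : F.B) (hf : ∀ z t, F.ev z t f ∈ U) :
    ∃ g : F.B, (∀ z t, F.ev z t g = φ (F.ev z t f))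
      ∧ (∀ z t a, F.ev z t (F.H a g) = deriv φ (F.ev z t f) * F.ev z t (F.H a f))
      ∧ (∀ z t, F.ev z t (F.D g) = deriv φ (F.ev z t f) * F.ev z t (F.D f))
      ∧ (∀ z t, F.ev z t (F.Hop g) = deriv φ (F.ev z t f) * F.ev z t (F.Hop f)
          - deriv (deriv φ) (F.ev z t f) * F.ev z t (F.gg f f)) := by
  have hφ' : ContDiffOn ℝ ((⊤ : ℕ∞) : WithTop ℕ∞) (deriv φ) U :=
    hφ.deriv_of_isOpen hU (by simp)
  obtain ⟨g, hg⟩ := hB.comp φ U hU hφ f hf
  obtain ⟨g1, hg1⟩ := hB.comp (deriv φ) U hU hφ' f hf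
  have hc := hB.chain φ U hU hφ f g hf hg
  have hc1 := hB.chain (deriv φ) U hU hφ' f g1 hf hg1
  have hH : ∀ a, F.H a g = g1 * F.H a f := by
    intro a
    apply hB.ext
    intro z t
    rw [(hc z t).1 a, map_mul, hg1 z t]
  refine ⟨g, hg, fun z t a => (hc z t).1 a, fun z t => (hc z t).2.2, ?_⟩
  intro z t
  have hL : F.Lap g = ∑ a, (g1 * F.H a (F.H a f) + F.H a f * F.H a g1) := by
    unfold FB.Lap
    refine Finset.sum_congr rfl fun a _ => ?_
    rw [hH a, Derivation.leibniz, smul_eq_mul, smul_eq_mul]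
  unfold FB.Hop
  rw [map_sub, (hc z t).2.2, hL]
  unfold FB.Lap FB.gg
  simp only [map_sub, map_sum, map_add, map_mul, (hc1 z t).1, hg1 z t]
  rw [Finset.sum_add_distrib, ← Finset.mul_sum, mul_sub, Finset.mul_sum (s := univ)
    (f := fun a => F.ev z t (F.H a f) * F.ev z t (F.H a f))]
  have : ∑ a, F.ev z t (F.H a f) * (deriv (deriv φ) (F.ev z t f) * F.ev z t (F.H a f))
      = ∑ a, deriv (deriv φ) (F.ev z t f) * (F.ev z t (F.H a f) * F.ev z t (F.H a f)) :=
    Finset.sum_congr rfl fun a _ => by ring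
  rw [this]
  ring

/-- powers on the positive half line -/
lemma cd_pow (a : ℝ) : ContDiffOn ℝ ((⊤ : ℕ∞) : WithTop ℕ∞) (fun x : ℝ => x ^ a)
    (Set.Ioi (0 : ℝ)) := by
  intro x hx
  exact (Real.contDiffAt_rpow_const_of_ne (ne_of_gt hx)).contDiffWithinAt

lemma d_pow (a : ℝ) {x : ℝ} (_hx : 0 < x) : deriv (fun x : ℝ => x ^ a) x = a * x ^ (a - 1) := by
  rw [Real.deriv_rpow_const]

lemma dd_pow (a : ℝ) {x : ℝ} (hx : 0 < x) :
    deriv (deriv (fun x : ℝ => x ^ a)) x = a * ((a - 1) * x ^ (a - 2)) := by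
  have h1 : deriv (fun x : ℝ => x ^ a) =ᶠ[nhds x] fun y => a * y ^ (a - 1) := by
    filter_upwards [isOpen_Ioi.mem_nhds hx] with y hy
    exact d_pow a hy
  rw [h1.deriv_eq, deriv_const_mul _ (Real.differentiableAt_rpow_const_of_ne _ hx.ne'),
    d_pow (a - 1) hx]
  ring_nf

/-- the final inequality at a touching point; `m = n - 1` -/
lemma real_fin {m S W τ t Q p D h X R σ : ℝ} (hm : 3 ≤ m) (hS : 0 < S) (hW : 0 < W) (hτ : 0 < τ)
    (ht : 0 < t) (hQ : 0 < Q) (hp : 0 ≤ p) (hσ : σ = 1 / (2 * m)) (hh : 2 * S ^ 2 ≤ h)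
    (hX : X ≤ 4 * ((m - 1) / m) * S * Q + R - 2 * D) (hR : R ≤ 1 / m * S * Q)
    (hbia : ((2 - σ) * (Q / S)) ^ 2 * p ≤ 4 * Q * D) (hts : 1 < t * S) :
    τ * (Q * (-(2 - σ) * (W / S) * h - (2 - σ) * (3 - σ) * (W / S ^ 2) * p) + W * X
        - 2 * (-((2 - σ) ^ 2 * (Q * W / S ^ 2)) * p)) + Q * W * (σ * (τ / t)) < 0 := by
  have hm0 : 0 < m := by linarith
  have hσ0 : 0 < σ := by rw [hσ]; positivity
  have hσ1 : σ ≤ 1 := by
    rw [hσ, div_le_one (by positivity)]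
    linarith
  obtain ⟨Y, hY⟩ : ∃ Y, Y = Q * p / S ^ 2 := ⟨_, rfl⟩
  have hY0 : 0 ≤ Y := by rw [hY]; positivity
  have h1 : (2 - σ) ^ 2 * Y ≤ 4 * D := by
    have h2 : ((2 - σ) * (Q / S)) ^ 2 * p = Q * ((2 - σ) ^ 2 * Y) := by
      rw [hY]; field_simp
    rw [h2] at hbia
    have h3 : Q * ((2 - σ) ^ 2 * Y) ≤ Q * (4 * D) := by linarith
    exact le_of_mul_le_mul_left h3 hQ
  have h2 : (2 - σ) * (2 - σ - 2) * Y ≤ 0 := by
    apply mul_nonpos_of_nonpos_of_nonneg _ hY0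
    apply mul_nonpos_of_nonneg_of_nonpos <;> linarith
  have h3 : 2 * S * Q ≤ Q / S * h := by
    have : Q / S * (2 * S ^ 2) ≤ Q / S * h := mul_le_mul_of_nonneg_left hh (by positivity)
    have e : Q / S * (2 * S ^ 2) = 2 * S * Q := by field_simp
    rwa [e] at this
  have h4 : (2 - σ) * (2 * S * Q) ≤ (2 - σ) * (Q / S * h) :=
    mul_le_mul_of_nonneg_left h3 (by linarith)
  have h5 : 1 / t < S := by
    rw [div_lt_iff₀ ht]
    linarith
  have h6 : σ * Q * (1 / t) < σ * Q * S := mul_lt_mul_of_pos_left h5 (by positivity)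
  have e1 : 4 * ((m - 1) / m) * S * Q = (4 - 8 * σ) * S * Q := by
    rw [hσ]; field_simp; ring
  have e2 : 1 / m * S * Q = 2 * σ * S * Q := by
    rw [hσ]; field_simp
  have h7 : 0 < σ * S * Q := by positivity
  have hB : -((2 - σ) * (Q / S * h)) - (2 - σ) * (3 - σ) * Y + X + 2 * (2 - σ) ^ 2 * Y
      + σ * Q * (1 / t) < 0 := by
    rw [e1] at hX
    rw [e2] at hR
    nlinarith [h1, h2, h4, h6, h7, hX, hR]
  have hfin : τ * (Q * (-(2 - σ) * (W / S) * h - (2 - σ) * (3 - σ) * (W / S ^ 2) * p) + W * X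
        - 2 * (-((2 - σ) ^ 2 * (Q * W / S ^ 2)) * p)) + Q * W * (σ * (τ / t))
      = (τ * W) * (-((2 - σ) * (Q / S * h)) - (2 - σ) * (3 - σ) * Y + X + 2 * (2 - σ) ^ 2 * Y
      + σ * Q * (1 / t)) := by
    rw [hY]
    field_simp
    ring
  rw [hfin]
  exact mul_neg_of_pos_of_neg (mul_pos hτ hW) hB

lemma e2_le {n : ℕ} (hn : 4 ≤ n) {T : ℝ} (F : FB n T) (hB : F.Base) (C l0 : ℝ) (hC : 0 < C)
    (hl0 : 0 < l0) (hCone : F.Cone C l0) (z : F.Z) (t : TI T) :
    F.ev z t F.e2 ≤ ((n : ℝ) + 1) ^ 4 * (C + 8) ^ 2 * F.ev z t F.lam ^ 2 := by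
  have hS : 0 < F.ev z t F.lam := lt_of_lt_of_le hl0 (hCone z t).1
  have hnu : ∀ a, |F.ev z t (F.nu a)| ≤ 1 := by
    intro a
    have h1 : ∑ b, F.ev z t (F.nu b) ^ 2 = 1 := by
      have := congrArg (F.ev z t) hB.nunu
      simpa only [map_sum, map_pow, map_one] using this
    have h2 : F.ev z t (F.nu a) ^ 2 ≤ ∑ b, F.ev z t (F.nu b) ^ 2 :=
      Finset.single_le_sum (f := fun b => F.ev z t (F.nu b) ^ 2) (fun b _ => sq_nonneg _)
        (Finset.mem_univ a)
    rw [h1] at h2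
    exact abs_le_one_iff_mul_self_le_one.2 (by nlinarith)
  have hdl : ∀ a b, |F.ev z t (F.dl a b)| ≤ 1 := by
    intro a b
    unfold FB.dl
    split_ifs
    · rw [map_one, abs_one]
    · rw [map_zero, abs_zero]; exact zero_le_one
  have hP : ∀ a b, |F.ev z t (F.P a b)| ≤ 2 := by
    intro a b
    unfold FB.P
    rw [map_sub, map_mul]
    have h1 := abs_sub (F.ev z t (F.dl a b)) (F.ev z t (F.nu a) * F.ev z t (F.nu b))
    have h2 : |F.ev z t (F.nu a) * F.ev z t (F.nu b)| ≤ 1 * 1 := by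
      rw [abs_mul]
      exact mul_le_mul (hnu a) (hnu b) (abs_nonneg _) zero_le_one
    linarith [hdl a b]
  have hI : ∀ a b c d, |F.ev z t (F.I a b c d)| ≤ 8 := by
    intro a b c d
    unfold FB.I
    rw [map_sub, map_mul, map_mul]
    have h1 := abs_sub (F.ev z t (F.P a c) * F.ev z t (F.P b d))
      (F.ev z t (F.P a d) * F.ev z t (F.P b c))
    have h2 : |F.ev z t (F.P a c) * F.ev z t (F.P b d)| ≤ 2 * 2 := by
      rw [abs_mul]
      exact mul_le_mul (hP a c) (hP b d) (abs_nonneg _) zero_le_two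
    have h3 : |F.ev z t (F.P a d) * F.ev z t (F.P b c)| ≤ 2 * 2 := by
      rw [abs_mul]
      exact mul_le_mul (hP a d) (hP b c) (abs_nonneg _) zero_le_two
    linarith
  have hm1 : (1 : ℝ) ≤ (n : ℝ) - 1 := by
    have : (4 : ℝ) ≤ n := by exact_mod_cast hn
    linarith
  have hE : ∀ a b c d, |F.ev z t (F.E a b c d)| ≤ (C + 8) * F.ev z t F.lam := by
    intro a b c d
    unfold FB.E
    rw [map_sub, map_smul, map_mul, smul_eq_mul]
    have h1 := abs_sub (F.ev z t (F.R a b c d))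
      (1 / ((n : ℝ) - 1) * (F.ev z t F.lam * F.ev z t (F.I a b c d)))
    have h2 : |1 / ((n : ℝ) - 1) * (F.ev z t F.lam * F.ev z t (F.I a b c d))|
        ≤ 1 * (F.ev z t F.lam * 8) := by
      rw [abs_mul, abs_mul, abs_of_pos hS, abs_of_nonneg (by positivity)]
      refine mul_le_mul ?_ (mul_le_mul_of_nonneg_left (hI a b c d) hS.le) (by positivity)
        zero_le_one
      rw [div_le_one (by linarith)]
      exact hm1
    have h3 := (hCone z t).2 a b c d
    linarith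
  have hev : F.ev z t F.e2 = ∑ a, ∑ b, ∑ c, ∑ d, F.ev z t (F.E a b c d) ^ 2 := by
    unfold FB.e2
    simp only [map_sum, map_pow]
  rw [hev]
  calc ∑ a, ∑ b, ∑ c, ∑ d, F.ev z t (F.E a b c d) ^ 2
      ≤ ∑ _a : Ix n, ∑ _b : Ix n, ∑ _c : Ix n, ∑ _d : Ix n, ((C + 8) * F.ev z t F.lam) ^ 2 := by
        refine Finset.sum_le_sum fun a _ => Finset.sum_le_sum fun b _ =>
          Finset.sum_le_sum fun c _ => Finset.sum_le_sum fun d _ => ?_
        rw [← sq_abs (F.ev z t (F.E a b c d))]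
        exact pow_le_pow_left₀ (abs_nonneg _) (hE a b c d) 2
    _ = ((n : ℝ) + 1) ^ 4 * (C + 8) ^ 2 * F.ev z t F.lam ^ 2 := by
        simp only [Finset.sum_const, Finset.card_univ, Fintype.card_fin, nsmul_eq_mul]
        push_cast
        ring

end P2aux

open P2aux in
/-- **P2.** -/
theorem goal_P2 (hMP3 : Goal_MP3) (hNRB : Goal_NRB) (hBIA : Goal_BIA) (hPRD : Goal_PRD)
    (hBDD : Goal_BDD) : Goal_P2 := by
  intro n hn
  obtain ⟨Cn, hCn, hnrb⟩ := hNRB n hn
  obtain ⟨Cb, hCb, hbia0⟩ := hBIA n (by omega)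
  have hn4 : (4 : ℝ) ≤ n := by exact_mod_cast hn
  obtain ⟨m, hm⟩ : ∃ m : ℝ, m = (n : ℝ) - 1 := ⟨_, rfl⟩
  have hm3 : 3 ≤ m := by rw [hm]; linarith
  have hm0 : 0 < m := by linarith
  obtain ⟨σ, hσ⟩ : ∃ σ : ℝ, σ = 1 / (2 * m) := ⟨_, rfl⟩
  have hσ0 : 0 < σ := by rw [hσ]; positivity
  have hσ1 : σ ≤ 1 := by
    rw [hσ, div_le_one (by positivity)]
    linarith
  refine ⟨σ, (1 / (Cn * m)) ^ 2, hσ0, hσ1, by positivity, ?_⟩
  intro C A hC hA
  obtain ⟨C1, hC1⟩ : ∃ C1 : ℝ, C1 = ((n : ℝ) + 1) ^ 4 * (C + 8) ^ 2 := ⟨_, rfl⟩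
  have hC1p : 0 < C1 := by rw [hC1]; positivity
  have hAn : 0 < A + n := by linarith
  refine ⟨C1 * (A + n) ^ σ + 1, by positivity, ?_⟩
  intro T F hF hRF l0 hl0 hBd hCone hRound
  have hB : F.Base := hF.toBase
  have hspos : ∀ z t, 0 < F.ev z t F.lam := fun z t => lt_of_lt_of_le hl0 (hCone z t).1
  have htpos : ∀ t : TI T, 0 < (t : ℝ) := fun t => t.2.1
  have he2 : ∀ z t, F.ev z t F.e2 ≤ C1 * F.ev z t F.lam ^ 2 := by
    intro z t
    rw [hC1]
    exact e2_le hn F hB C l0 hC hl0 hCone z t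
  -- the elements
  obtain ⟨w, hw, hwH, hwD, hwHop⟩ := comp_el F hB (fun x : ℝ => x ^ (-(2 - σ)))
    (Set.Ioi 0) isOpen_Ioi (cd_pow _) F.lam (fun z t => hspos z t)
  obtain ⟨τ, hτ, hτH, hτD, hτHop⟩ := comp_el F hB (fun x : ℝ => x ^ σ)
    (Set.Ioi 0) isOpen_Ioi (cd_pow _) F.tt (fun z t => by
      rw [hB.tt_ev]; exact htpos t)
  have hτev : ∀ z t, F.ev z t τ = (t : ℝ) ^ σ := by
    intro z t
    rw [hτ, hB.tt_ev]
  have hτH0 : ∀ a, F.H a τ = 0 := by
    intro a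
    apply hB.ext
    intro z t
    rw [hτH, hB.tt_H, map_zero, mul_zero]
  have hτHop1 : ∀ z t, F.ev z t (F.Hop τ) = σ * (t : ℝ) ^ (σ - 1) := by
    intro z t
    unfold FB.Hop FB.Lap
    simp only [hτH0, map_zero, Finset.sum_const_zero, sub_zero]
    rw [hτD, hB.tt_ev, hB.tt_D, map_one, mul_one, d_pow _ (htpos t)]
  have hw1 : ∀ z t, F.ev z t w = F.ev z t F.lam ^ (-(2 - σ)) := fun z t => hw z t
  have hwpos : ∀ z t, 0 < F.ev z t w := fun z t => by
    rw [hw1]; exact Real.rpow_pos_of_pos (hspos z t) _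
  have hτpos : ∀ z t, 0 < F.ev z t τ := fun z t => by
    rw [hτev]; exact Real.rpow_pos_of_pos (htpos t) _
  have hsm1 : ∀ z t, F.ev z t F.lam ^ (-(2 - σ) - 1) = F.ev z t w / F.ev z t F.lam := by
    intro z t
    rw [Real.rpow_sub_one (hspos z t).ne', hw1]
  have hsm2 : ∀ z t, F.ev z t F.lam ^ (-(2 - σ) - 2)
      = F.ev z t w / F.ev z t F.lam ^ 2 := by
    intro z t
    have h := Real.rpow_sub (hspos z t) (-(2 - σ)) 2
    rw [h, hw1]
    norm_num
  have hwH1 : ∀ z t a, F.ev z t (F.H a w)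
      = -(2 - σ) * (F.ev z t w / F.ev z t F.lam) * F.ev z t (F.H a F.lam) := by
    intro z t a
    rw [hwH, d_pow _ (hspos z t), hsm1]
  have hwHop1 : ∀ z t, F.ev z t (F.Hop w)
      = -(2 - σ) * (F.ev z t w / F.ev z t F.lam) * F.ev z t (F.Hop F.lam)
        - (2 - σ) * (3 - σ) * (F.ev z t w / F.ev z t F.lam ^ 2)
          * F.ev z t (F.gg F.lam F.lam) := by
    intro z t
    rw [hwHop, d_pow _ (hspos z t), dd_pow _ (hspos z t), hsm1, hsm2]
    ring
  have hq0 : ∀ z t, 0 ≤ F.ev z t F.e2 := fun z t => (hbia0 T F hF z t).2.2.2.2.1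
  -- the product is small when `t lam` is small
  have hsmall : ∀ z (t : TI T), (t : ℝ) * F.ev z t F.lam ≤ A + n →
      F.ev z t τ * (F.ev z t F.e2 * F.ev z t w) ≤ C1 * (A + n) ^ σ := by
    intro z t h
    have hS := hspos z t
    have ht := htpos t
    have h2 : F.ev z t τ * F.ev z t w * F.ev z t F.lam ^ 2
        = ((t : ℝ) * F.ev z t F.lam) ^ σ := by
      rw [hτev, hw1, Real.mul_rpow ht.le hS.le, mul_assoc,
        ← Real.rpow_natCast (F.ev z t F.lam) 2, ← Real.rpow_add hS]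
      congr 2
      push_cast
      ring
    have h3 : ((t : ℝ) * F.ev z t F.lam) ^ σ ≤ (A + n) ^ σ :=
      Real.rpow_le_rpow (by positivity) h hσ0.le
    calc F.ev z t τ * (F.ev z t F.e2 * F.ev z t w)
        = F.ev z t τ * F.ev z t w * F.ev z t F.e2 := by ring
      _ ≤ F.ev z t τ * F.ev z t w * (C1 * F.ev z t F.lam ^ 2) :=
          mul_le_mul_of_nonneg_left (he2 z t) (mul_pos (hτpos z t) (hwpos z t)).le
      _ = C1 * (F.ev z t τ * F.ev z t w * F.ev z t F.lam ^ 2) := by ring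
      _ = C1 * ((t : ℝ) * F.ev z t F.lam) ^ σ := by rw [h2]
      _ ≤ C1 * (A + n) ^ σ := mul_le_mul_of_nonneg_left h3 hC1p.le
  obtain ⟨K0, hK0⟩ : ∃ K0 : ℝ, K0 = C1 * (A + n) ^ σ + 1 := ⟨_, rfl⟩
  have hK0p : 0 < K0 := by rw [hK0]; positivity
  rw [← hK0]
  have hevf : ∀ z t, F.ev z t (algebraMap ℝ F.B K0 - τ * (F.e2 * w))
      = K0 - F.ev z t τ * (F.ev z t F.e2 * F.ev z t w) := by
    intro z t
    rw [map_sub, map_mul, map_mul, AlgHom.commutes]
    rfl
  -- near time zero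
  have hnear : ∃ δ > 0, ∀ (_k : Unit) z (t : TI T), (0 : ℝ) < t → (t : ℝ) < 0 + δ →
      0 < F.ev z t (algebraMap ℝ F.B K0 - τ * (F.e2 * w)) := by
    obtain ⟨-, -, hb, -⟩ := hBDD n T F hB
    have hlamB : F.Bd0 F.lam := by
      unfold FB.lam FB.Ric
      have h1 : F.Bd0 (∑ a, ∑ b, F.R a b a b) := by
        refine Finset.sum_induction_nonempty _ F.Bd0 (fun x y hx hy => (hb x y hx hy).1)
          ⟨0, Finset.mem_univ _⟩ fun a _ => ?_
        exact Finset.sum_induction_nonempty _ F.Bd0 (fun x y hx hy => (hb x y hx hy).1)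
          ⟨0, Finset.mem_univ _⟩ fun b _ => hBd a b a b
      exact (hb _ _ h1 h1).2.2.2 _
    obtain ⟨L, t0, ht0, -, hL⟩ := hlamB
    have hLp : 0 < |L| + 1 := by positivity
    refine ⟨min t0 ((A + n) / (|L| + 1)), lt_min ht0 (by positivity), ?_⟩
    intro _ z t htp ht
    rw [zero_add] at ht
    have ht1 : (t : ℝ) < t0 := lt_of_lt_of_le ht (min_le_left _ _)
    have ht2 : (t : ℝ) < (A + n) / (|L| + 1) := lt_of_lt_of_le ht (min_le_right _ _)
    rw [lt_div_iff₀ hLp] at ht2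
    have h1 : F.ev z t F.lam ≤ |L| + 1 := by
      have h2 := hL z t ht1
      have h3 := le_abs_self (F.ev z t F.lam)
      have h4 := le_abs_self L
      linarith
    have h2 : (t : ℝ) * F.ev z t F.lam ≤ A + n :=
      (mul_le_mul_of_nonneg_left h1 htp.le).trans ht2.le
    rw [hevf, hK0]
    linarith [hsmall z t h2]
  -- touching points
  have htouch : ∀ (_k : Unit) z (t : TI T), (0 : ℝ) < t → (t : ℝ) ≤ (t : ℝ) →
      F.ev z t (algebraMap ℝ F.B K0 - τ * (F.e2 * w)) = 0 →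
      (∀ (_k' : Unit) z', 0 ≤ F.ev z' t (algebraMap ℝ F.B K0 - τ * (F.e2 * w))) →
      0 < F.ev z t (F.Hop (algebraMap ℝ F.B K0 - τ * (F.e2 * w))) := by
    intro _ z t _ _ h0 hmin
    have hm' := hB.min1 (algebraMap ℝ F.B K0 - τ * (F.e2 * w)) z t
      (fun z' => by rw [h0]; exact hmin () z')
    have hS := hspos z t
    have hW := hwpos z t
    have hTau := hτpos z t
    have ht := htpos t
    have hQ0 := hq0 z t
    have hF0 : F.ev z t τ * (F.ev z t F.e2 * F.ev z t w) = K0 := by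
      rw [hevf] at h0
      linarith
    have hQ : 0 < F.ev z t F.e2 := by
      rcases hQ0.lt_or_eq with h | h
      · exact h
      · rw [← h] at hF0
        simp only [zero_mul, mul_zero] at hF0
        exact absurd hF0 hK0p.ne
    -- `t lam` is large
    have htS : A + n < (t : ℝ) * F.ev z t F.lam := by
      by_contra hcon
      push Not at hcon
      have := hsmall z t hcon
      rw [hF0, hK0] at this
      linarith
    have hts : 1 < (t : ℝ) * F.ev z t F.lam := by linarith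
    have hRd := hRound z t (by linarith)
    -- gradient
    have hHq : ∀ a, F.ev z t (F.H a F.e2)
        = (2 - σ) * (F.ev z t F.e2 / F.ev z t F.lam) * F.ev z t (F.H a F.lam) := by
      intro a
      have h1 := (hm' a).1
      rw [map_sub, Derivation.map_algebraMap, Derivation.leibniz, Derivation.leibniz, hτH0 a]
        at h1
      simp only [smul_eq_mul, mul_zero, add_zero, zero_sub, map_neg, map_mul, map_add] at h1
      have h2 : F.ev z t F.e2 * F.ev z t (F.H a w) + F.ev z t w * F.ev z t (F.H a F.e2) = 0 := by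
        have h3 : F.ev z t τ * (F.ev z t F.e2 * F.ev z t (F.H a w)
            + F.ev z t w * F.ev z t (F.H a F.e2)) = 0 := by linarith
        rcases mul_eq_zero.1 h3 with h | h
        · exact absurd h hTau.ne'
        · exact h
      rw [hwH1] at h2
      have h4 : F.ev z t w * (F.ev z t (F.H a F.e2)
          - (2 - σ) * (F.ev z t F.e2 / F.ev z t F.lam) * F.ev z t (F.H a F.lam)) = 0 := by
        rw [← h2]; ring
      rcases mul_eq_zero.1 h4 with h | h
      · exact absurd h hW.ne'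
      · linarith
    have hgqq : F.ev z t (F.gg F.e2 F.e2)
        = ((2 - σ) * (F.ev z t F.e2 / F.ev z t F.lam)) ^ 2 * F.ev z t (F.gg F.lam F.lam) := by
      unfold FB.gg
      simp only [map_sum, map_mul, hHq]
      rw [Finset.mul_sum]
      exact Finset.sum_congr rfl fun a _ => by ring
    have hgqw : F.ev z t (F.gg F.e2 w)
        = -((2 - σ) ^ 2 * (F.ev z t F.e2 * F.ev z t w / F.ev z t F.lam ^ 2))
          * F.ev z t (F.gg F.lam F.lam) := by
      unfold FB.gg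
      simp only [map_sum, map_mul, hHq, hwH1]
      rw [Finset.mul_sum]
      refine Finset.sum_congr rfl fun a _ => ?_
      field_simp
    have hgτ : F.gg τ (F.e2 * w) = 0 := by
      unfold FB.gg
      simp [hτH0]
    -- the heat operator
    have hHopf : F.ev z t (F.Hop (algebraMap ℝ F.B K0 - τ * (F.e2 * w)))
        = -(F.ev z t τ * F.ev z t (F.Hop (F.e2 * w))
            + F.ev z t F.e2 * F.ev z t w * F.ev z t (F.Hop τ)) := by
      rw [((hPRD n T F).1 (algebraMap ℝ F.B K0) (τ * (F.e2 * w))).2.2.1,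
        (((hPRD n T F).1 0 0).2.2.2.1 K0).2, ((hPRD n T F).1 τ (F.e2 * w)).1, hgτ]
      simp only [smul_zero, sub_zero, zero_sub, map_neg, map_add, map_mul]
    have hHopqw : F.ev z t (F.Hop (F.e2 * w))
        = F.ev z t F.e2 * F.ev z t (F.Hop w) + F.ev z t w * F.ev z t (F.Hop F.e2)
          - 2 * F.ev z t (F.gg F.e2 w) := by
      rw [((hPRD n T F).1 F.e2 w).1]
      simp only [map_sub, map_add, map_mul, map_smul, smul_eq_mul]
    have hbia := (hbia0 T F hF z t).2.2.1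
    have hp0 : 0 ≤ F.ev z t (F.gg F.lam F.lam) :=
      ((hbia0 T F hF z t).2.2.2.2.2.2.2 F.lam).1
    have hτt : F.ev z t (F.Hop τ) = σ * (F.ev z t τ / t) := by
      rw [hτHop1, hτev, Real.rpow_sub_one ht.ne']
    obtain ⟨hn1, hn2, -⟩ := hnrb T F hF hRF z t hS.le
    -- the cubic term
    have hR : Cn * F.ev z t F.e2 * Real.sqrt (F.ev z t F.e2)
        ≤ 1 / m * F.ev z t F.lam * F.ev z t F.e2 := by
      have h1 : Real.sqrt (F.ev z t F.e2) ≤ 1 / (Cn * m) * F.ev z t F.lam := by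
        apply Real.sqrt_le_iff.2
        refine ⟨by positivity, ?_⟩
        rw [mul_pow]
        exact hRd
      calc Cn * F.ev z t F.e2 * Real.sqrt (F.ev z t F.e2)
          ≤ Cn * F.ev z t F.e2 * (1 / (Cn * m) * F.ev z t F.lam) :=
            mul_le_mul_of_nonneg_left h1 (by positivity)
        _ = 1 / m * F.ev z t F.lam * F.ev z t F.e2 := by field_simp
    have hmm : ((n : ℝ) - 2) / ((n : ℝ) - 1) = (m - 1) / m := by
      rw [hm]; congr 1; ring
    rw [hmm] at hn1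
    rw [hHopf, hHopqw, hwHop1, hgqw, hτt]
    rw [hgqq] at hbia
    have := real_fin hm3 hS hW hTau ht hQ hp0 hσ hn2 hn1 hR hbia hts
    linarith
  intro z t
  have h := hMP3 n T F hB Unit (fun _ => algebraMap ℝ F.B K0 - τ * (F.e2 * w))
    ((hB.cont _).comp continuous_snd) 0 t le_rfl t.2.2 hnear
    (fun _ z s hs1 _ h0 hmin => htouch () z s hs1 le_rfl h0 hmin) () z t (htpos t) le_rfl
  rw [hevf, hτev, hw1] at h
  have ht := htpos t
  have hS := hspos z t
  have h1 : F.ev z t F.e2 * ((t : ℝ) ^ σ * F.ev z t F.lam ^ (-(2 - σ))) ≤ K0 := by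
    nlinarith [h]
  have h2 : K0 * (t : ℝ) ^ (-σ) * F.ev z t F.lam ^ (2 - σ)
      = K0 / ((t : ℝ) ^ σ * F.ev z t F.lam ^ (-(2 - σ))) := by
    rw [Real.rpow_neg ht.le, Real.rpow_neg hS.le]
    have := Real.rpow_pos_of_pos ht σ
    have := Real.rpow_pos_of_pos hS (2 - σ)
    field_simp
  rw [h2, le_div_iff₀ (mul_pos (Real.rpow_pos_of_pos ht _) (Real.rpow_pos_of_pos hS _))]
  exact h1

end Pool.Agent.Helper47.RFn
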