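import Pool.Agent.Helper47.RFn.GoalsB

/-!
# Project RFn (`MP_c98eff_gt`), packet STP: one step of the chain
-/

namespace Pool.Agent.Helper47.RFn

open Finset

namespace STPaux

/-- A uniform bound near time zero for a finite family. -/
lemma bd0_unif {n : ℕ} {T : ℝ} (F : FB n T) (h : ∀ i j k l, F.Bd0 (F.R i j k l)) :
    ∃ C t0 : ℝ, 0 ≤ C ∧ 0 < t0 ∧ t0 < T ∧ ∀ z (t : TI T), (t : ℝ) < t0 →
      ∀ i j k l, |F.rv z t i j k l| ≤ C := by
  choose C t0 h0 h1 h2 using h
  obtain ⟨m, hm⟩ : ∃ m : ℝ, m = (univ : Finset (Ix n × Ix n × Ix n × Ix n)).inf'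
      ⟨(0, 0, 0, 0), mem_univ _⟩ (fun x => t0 x.1 x.2.1 x.2.2.1 x.2.2.2) := ⟨_, rfl⟩
  have hm1 : ∀ i j k l, m ≤ t0 i j k l := by
    intro i j k l
    rw [hm]
    exact Finset.inf'_le (fun x : Ix n × Ix n × Ix n × Ix n => t0 x.1 x.2.1 x.2.2.1 x.2.2.2)
      (mem_univ (i, j, k, l))
  refine ⟨∑ x : Ix n × Ix n × Ix n × Ix n, |C x.1 x.2.1 x.2.2.1 x.2.2.2|, m,
    sum_nonneg fun _ _ => abs_nonneg _, ?_, lt_of_le_of_lt (hm1 0 0 0 0) (h1 0 0 0 0), ?_⟩
  · rw [hm]
    exact (Finset.lt_inf'_iff _).2 fun x _ => h0 _ _ _ _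
  · intro z t ht i j k l
    have h3 := h2 i j k l z t (lt_of_lt_of_le ht (hm1 i j k l))
    have h4 : |C i j k l| ≤ ∑ x : Ix n × Ix n × Ix n × Ix n, |C x.1 x.2.1 x.2.2.1 x.2.2.2| :=
      Finset.single_le_sum (f := fun x : Ix n × Ix n × Ix n × Ix n =>
        |C x.1 x.2.1 x.2.2.1 x.2.2.2|) (fun _ _ => abs_nonneg _) (mem_univ (i, j, k, l))
    exact h3.trans ((le_abs_self _).trans h4)

lemma iota_le {n : ℕ} {ν : Ix n → ℝ} {ι : Ix n → Fin n → ℝ} (h : Iso ν ι) (i : Ix n) (a : Fin n) :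
    |ι i a| ≤ 1 := by
  have h1 := h.orth a a
  rw [if_pos rfl] at h1
  have h2 : ι i a * ι i a ≤ ∑ j, ι j a * ι j a :=
    Finset.single_le_sum (f := fun j => ι j a * ι j a) (fun j _ => mul_self_nonneg _) (mem_univ i)
  rw [h1] at h2
  exact abs_le_one_iff_mul_self_le_one.2 h2

lemma pull_le {n : ℕ} {ν : Ix n → ℝ} {ι : Ix n → Fin n → ℝ} (h : Iso ν ι) {R : T4 (n + 1)} {C : ℝ}
    (hC : ∀ i j k l, |R i j k l| ≤ C) (a b c d : Fin n) :
    |pull ι R a b c d| ≤ ((n : ℝ) + 1) ^ 4 * C := by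
  have h0 : 0 ≤ C := (abs_nonneg _).trans (hC 0 0 0 0)
  unfold pull
  calc |∑ i, ∑ j, ∑ k, ∑ l, R i j k l * ι i a * ι j b * ι k c * ι l d|
      ≤ ∑ i, ∑ j, ∑ k, ∑ l, |R i j k l * ι i a * ι j b * ι k c * ι l d| := by
        refine (abs_sum_le_sum_abs _ _).trans (sum_le_sum fun i _ => ?_)
        refine (abs_sum_le_sum_abs _ _).trans (sum_le_sum fun j _ => ?_)
        refine (abs_sum_le_sum_abs _ _).trans (sum_le_sum fun k _ => ?_)
        exact abs_sum_le_sum_abs _ _
    _ ≤ ∑ _i : Ix n, ∑ _j : Ix n, ∑ _k : Ix n, ∑ _l : Ix n, C := by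
        refine sum_le_sum fun i _ => sum_le_sum fun j _ => sum_le_sum fun k _ =>
          sum_le_sum fun l _ => ?_
        rw [abs_mul, abs_mul, abs_mul, abs_mul]
        have e : C = C * 1 * 1 * 1 * 1 := by ring
        rw [e]
        refine mul_le_mul (mul_le_mul (mul_le_mul (mul_le_mul (hC i j k l) (iota_le h i a)
          (abs_nonneg _) h0) (iota_le h j b) (abs_nonneg _) (by positivity)) (iota_le h k c)
          (abs_nonneg _) (by positivity)) (iota_le h l d) (abs_nonneg _) (by positivity)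
    _ = ((n : ℝ) + 1) ^ 4 * C := by
        simp only [sum_const, card_univ, Fintype.card_fin, nsmul_eq_mul]
        push_cast
        ring

lemma ric_le {n : ℕ} {R : T4 n} {C : ℝ} (hC : ∀ a b c d, |R a b c d| ≤ C) (a c : Fin n) :
    |Ric R a c| ≤ n * C := by
  unfold Ric
  calc |∑ b, R a b c b| ≤ ∑ b, |R a b c b| := abs_sum_le_sum_abs _ _
    _ ≤ ∑ _b : Fin n, C := sum_le_sum fun b _ => hC _ _ _ _
    _ = n * C := by simp only [sum_const, card_univ, Fintype.card_fin, nsmul_eq_mul]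

lemma lam_le {n : ℕ} (hn : 1 ≤ n) {R : T4 n} {C : ℝ} (hC : ∀ a b c d, |R a b c d| ≤ C) :
    |lam R| ≤ n * C := by
  have hn0 : (0 : ℝ) < n := by exact_mod_cast hn
  unfold lam
  rw [abs_div, abs_of_pos hn0, div_le_iff₀ hn0]
  calc |∑ a, Ric R a a| ≤ ∑ a, |Ric R a a| := abs_sum_le_sum_abs _ _
    _ ≤ ∑ _a : Fin n, n * C := sum_le_sum fun a _ => ric_le hC a a
    _ = n * C * n := by
        simp only [sum_const, card_univ, Fintype.card_fin, nsmul_eq_mul]
        ring

lemma one_le' {n : ℕ} (i j : Fin n) : |(1 : M2 n) i j| ≤ 1 := by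
  rw [Matrix.one_apply]
  split_ifs
  · rw [abs_one]
  · rw [abs_zero]; exact zero_le_one

lemma wdg_le {n : ℕ} {A : M2 n} {M : ℝ} (hM : ∀ i j, |A i j| ≤ M) (a b c d : Fin n) :
    |wdg A 1 a b c d| ≤ 2 * M := by
  have h1 : ∀ i j k l, |A i j * (1 : M2 n) k l| ≤ M := by
    intro i j k l
    rw [abs_mul]
    have := mul_le_mul (hM i j) (one_le' k l) (abs_nonneg _) ((abs_nonneg _).trans (hM i j))
    linarith
  have h2 : ∀ i j k l, |(1 : M2 n) i j * A k l| ≤ M := by
    intro i j k l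
    rw [mul_comm]
    exact h1 _ _ _ _
  unfold wdg
  have k1 := abs_le.1 (h1 a c b d)
  have k2 := abs_le.1 (h1 a d b c)
  have k3 := abs_le.1 (h1 b c a d)
  have k4 := abs_le.1 (h1 b d a c)
  have k5 := abs_le.1 (h2 a c b d)
  have k6 := abs_le.1 (h2 a d b c)
  have k7 := abs_le.1 (h2 b c a d)
  have k8 := abs_le.1 (h2 b d a c)
  rw [abs_le]
  constructor <;> linarith

lemma elli_le {n : ℕ} (hn : 4 ≤ n) {a b : ℝ} (ha : 0 ≤ a) (hb : 0 ≤ b) {R : T4 n} {C : ℝ}
    (hC : ∀ i j k l, |R i j k l| ≤ C) (i j k l : Fin n) :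
    |elli a b R i j k l| ≤ 7 * n * C := by
  have hn4 : (4 : ℝ) ≤ n := by exact_mod_cast hn
  have h0 : 0 ≤ C := (abs_nonneg _).trans (hC i j k l)
  have hl := lam_le (by omega) hC
  have c1 : |2 * a / (1 + 2 * ((n : ℝ) - 1) * a)| ≤ 1 := by
    have : 0 < 1 + 2 * ((n : ℝ) - 1) * a := by
      have : 0 ≤ ((n : ℝ) - 1) * a := mul_nonneg (by linarith) ha
      linarith
    rw [abs_of_nonneg (by positivity), div_le_one this]
    nlinarith
  have c2 : |2 * b / (1 + ((n : ℝ) - 2) * b)| ≤ 1 := by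
    have : 0 < 1 + ((n : ℝ) - 2) * b := by
      have : 0 ≤ ((n : ℝ) - 2) * b := mul_nonneg (by linarith) hb
      linarith
    rw [abs_of_nonneg (by positivity), div_le_one this]
    nlinarith
  have hI : |Id4 n i j k l| ≤ 2 := by
    have := wdg_le (A := (1 : M2 n)) (M := 1) one_le' i j k l
    unfold Id4
    linarith
  have hr0 : ∀ x y, |Ric0 R x y| ≤ 2 * n * C := by
    intro x y
    have e : Ric0 R x y = Ric R x y - lam R * (1 : M2 n) x y := rfl
    rw [e]
    have h1 := abs_sub (Ric R x y) (lam R * (1 : M2 n) x y)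
    have h2 : |lam R * (1 : M2 n) x y| ≤ n * C * 1 := by
      rw [abs_mul]
      exact mul_le_mul hl (one_le' x y) (abs_nonneg _) (by positivity)
    linarith [ric_le hC x y]
  have hw := wdg_le hr0 i j k l
  have e : elli a b R i j k l = R i j k l
      - 2 * a / (1 + 2 * ((n : ℝ) - 1) * a) * lam R * Id4 n i j k l
      - 2 * b / (1 + ((n : ℝ) - 2) * b) * wdg (Ric0 R) 1 i j k l := rfl
  have t1 : |2 * a / (1 + 2 * ((n : ℝ) - 1) * a) * lam R * Id4 n i j k l| ≤ 1 * (n * C) * 2 := by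
    rw [abs_mul, abs_mul]
    exact mul_le_mul (mul_le_mul c1 hl (abs_nonneg _) zero_le_one) hI (abs_nonneg _)
      (by positivity)
  have t2 : |2 * b / (1 + ((n : ℝ) - 2) * b) * wdg (Ric0 R) 1 i j k l|
      ≤ 1 * (2 * (2 * n * C)) := by
    rw [abs_mul]
    exact mul_le_mul c2 hw (abs_nonneg _) zero_le_one
  have t0 := hC i j k l
  have hnC : C ≤ n * C := by nlinarith
  rw [e]
  have k0 := abs_le.1 t0
  have k1 := abs_le.1 t1
  have k2 := abs_le.1 t2
  rw [abs_le]
  constructor <;> linarith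

lemma rq_le {n : ℕ} {A : M2 n} {M : ℝ} (hM : ∀ i j, |A i j| ≤ M) (v : Fin n → ℝ) :
    |rq A v| ≤ n * M * nrm v := by
  unfold rq nrm
  calc |∑ i, ∑ j, A i j * v i * v j| ≤ ∑ i, ∑ j, |A i j * v i * v j| := by
        refine (abs_sum_le_sum_abs _ _).trans (sum_le_sum fun i _ => ?_)
        exact abs_sum_le_sum_abs _ _
    _ ≤ ∑ i, ∑ j, (M / 2 * v i ^ 2 + M / 2 * v j ^ 2) := by
        refine sum_le_sum fun i _ => sum_le_sum fun j _ => ?_
        have h0 : 0 ≤ M := (abs_nonneg _).trans (hM i j)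
        rw [abs_mul, abs_mul, mul_assoc]
        have h1 : |A i j| * (|v i| * |v j|) ≤ M * (|v i| * |v j|) :=
          mul_le_mul_of_nonneg_right (hM i j) (by positivity)
        have h2 : |v i| * |v j| ≤ (v i ^ 2 + v j ^ 2) / 2 := by
          rw [← sq_abs (v i), ← sq_abs (v j)]
          nlinarith [sq_nonneg (|v i| - |v j|)]
        have h3 := mul_le_mul_of_nonneg_left h2 h0
        linarith
    _ = n * M * ∑ i, v i ^ 2 := by
        simp only [sum_add_distrib, sum_const, card_univ, Fintype.card_fin, nsmul_eq_mul,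
          ← mul_sum]
        ring

lemma nrm_pos {n : ℕ} {v : Fin n → ℝ} (hv : v ≠ 0) : 0 < nrm v := by
  obtain ⟨i, hi⟩ := Function.ne_iff.1 hv
  have h1 : v i ^ 2 ≤ nrm v :=
    Finset.single_le_sum (f := fun j => v j ^ 2) (fun j _ => sq_nonneg _) (mem_univ i)
  have h2 : 0 < v i ^ 2 := by
    have : v i ≠ 0 := hi
    positivity
  linarith

end STPaux

open STPaux in
/-- **STP.** -/
theorem goal_STP (hINV : Goal_INV) (_hRP1 : Goal_RP1) (hRP2 : Goal_RP2) (_hRP3 : Goal_RP3)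
    (hRP4 : Goal_RP4) (hLI : Goal_LI) (hLN : Goal_LN) (hCL : Goal_CL) (_hCB : Goal_CB)
    (hRIC : Goal_RIC) : Goal_STP := by
  intro n hn a b p a' b' p' c Λ B hG haΛ hB hStep T F hF hRF hBd hlam hK
  have hn4 : (4 : ℝ) ≤ n := by exact_mod_cast hn
  have ha := hG.ha
  have hb := hG.hb
  have hp := hG.hp
  have hp1 := hG.hp1
  have hc := hG.hc
  have hBase : F.Base := hF.toBase
  have htpos : ∀ t : TI T, 0 < (t : ℝ) := fun t => t.2.1
  obtain ⟨N, hN⟩ : ∃ N : ℝ, N = 1 + 2 * ((n : ℝ) - 1) * a' := ⟨_, rfl⟩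
  have hN1 : 1 ≤ N := by
    rw [hN]
    have : 0 ≤ ((n : ℝ) - 1) * a' := mul_nonneg (by linarith) ha
    linarith
  have hN0 : 0 < N := by linarith
  -- linear facts
  have li7 : ∀ R S : T4 n, elli a' b' (R + S) = elli a' b' R + elli a' b' S := fun R S =>
    (hLI n (by omega) a' b' ha hb R).2.2.2.2.2.2.1 S
  have li8 : ∀ (x : ℝ) (R : T4 n), elli a' b' (x • R) = x • elli a' b' R := fun x R =>
    (hLI n (by omega) a' b' ha hb R).2.2.2.2.2.2.2.1 x
  have li9 : elli a' b' (Id4 n) = (1 / N) • Id4 n := by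
    rw [hN]; exact (hLI n (by omega) a' b' ha hb 0).2.2.2.2.2.2.2.2.1
  have li5 : ∀ R : T4 n, lam (elli a' b' R) = lam R / N := fun R => by
    rw [hN]; exact (hLI n (by omega) a' b' ha hb R).2.2.2.2.1
  obtain ⟨n1, n2, n3, n4, n5, n6, -, -, n9, n10, -, n12, n13, n14⟩ := hLN n
  obtain ⟨-, -, cI, cAdd, cSmul, -, -, cEll, -⟩ := hCL n
  have ladd : ∀ (R : T4 n) (x : ℝ), elli a' b' (R + x • Id4 n)
      = elli a' b' R + (x / N) • Id4 n := by
    intro R x
    rw [li7, li8, li9, smul_smul]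
    congr 2
    ring
  have lamI : lam (Id4 n) = (n : ℝ) - 1 := n10 (by omega)
  -- adding a multiple of the identity gives strictness
  have hqadd : ∀ (R : T4 n) (x : ℝ) z w, qf (elli a' b' (R + x • Id4 n)) z w
      = qf (elli a' b' R) z w + x / N * qf (Id4 n) z w := by
    intro R x z w
    rw [ladd, n1, n2]
  have hlamadd : ∀ (R : T4 n) (x : ℝ), lam (elli a' b' (R + x • Id4 n))
      = lam (elli a' b' R) + x / N * ((n : ℝ) - 1) := by
    intro R x
    rw [ladd, n5, n6, lamI]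
  have hricadd : ∀ (R : T4 n) (x : ℝ) v, rq (Ric (elli a' b' (R + x • Id4 n))) v
      = rq (Ric (elli a' b' R)) v + x / N * (((n : ℝ) - 1) * nrm v) := by
    intro R x v
    rw [ladd, n3, n4, n9, n12, n13, n13, n14]
  have hcurvadd : ∀ (R : T4 n) (x : ℝ), IsCurv R → IsCurv (R + x • Id4 n) :=
    fun R x hR => cAdd _ _ hR (cSmul _ _ cI)
  have hstrict : ∀ (R : T4 n) (x : ℝ), Kc a' b' p' R → 0 < x → SK a' b' p' (R + x • Id4 n) := by
    intro R x hR hx
    obtain ⟨r1, r2, r3⟩ := hR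
    have hxN : 0 < x / N := div_pos hx hN0
    refine ⟨hcurvadd R x r1, ?_, ?_⟩
    · intro z w hq
      rw [hqadd]
      have := r2.2 z w
      have := mul_pos hxN hq
      linarith
    · intro v hv
      rw [hlamadd, hricadd]
      have h1 := r3 v
      have h2 := nrm_pos hv
      have h3 : 0 < x / N * (((n : ℝ) - 1) * nrm v) :=
        mul_pos hxN (mul_pos (by linarith) h2)
      have h4 : p' * (x / N * (((n : ℝ) - 1) * nrm v)) < x / N * (((n : ℝ) - 1) * nrm v) := by
        nlinarith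
      linarith
  -- the correction
  obtain ⟨bet, hbet⟩ := hBase.comp (fun x : ℝ => 2 * B * x⁻¹) (Set.Ioi 0) isOpen_Ioi
    (by
      intro x hx
      exact (contDiffAt_const.mul (contDiffAt_inv ℝ (ne_of_gt hx))).contDiffWithinAt)
    F.tt (fun z t => by rw [hBase.tt_ev]; exact htpos t)
  have hch := hBase.chain (fun x : ℝ => 2 * B * x⁻¹) (Set.Ioi 0) isOpen_Ioi
    (by
      intro x hx
      exact (contDiffAt_const.mul (contDiffAt_inv ℝ (ne_of_gt hx))).contDiffWithinAt)
    F.tt bet (fun z t => by rw [hBase.tt_ev]; exact htpos t) hbet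
  have hbev : ∀ z (t : TI T), F.ev z t bet = 2 * B / t := by
    intro z t
    rw [hbet, hBase.tt_ev]
    rfl
  have hbH : ∀ a, F.H a bet = 0 := by
    intro a
    apply hBase.ext
    intro z t
    rw [(hch z t).1 a, hBase.tt_H, map_zero, mul_zero]
  have hbD : F.D bet = (-(1 / (2 * B)) : ℝ) • bet ^ 2 := by
    apply hBase.ext
    intro z t
    have ht := htpos t
    rw [(hch z t).2.2, hBase.tt_D, map_one, mul_one, map_smul, map_pow, hbev, hBase.tt_ev,
      smul_eq_mul]
    rw [deriv_const_mul _ (differentiableAt_inv ht.ne'), deriv_inv]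
    have hB0 : B ≠ 0 := by linarith
    field_simp
  have hbpos : ∀ z t, 0 < F.ev z t bet := by
    intro z t
    rw [hbev]
    have := htpos t
    positivity
  -- restriction
  have hpull : ∀ z t ι, Iso (F.nv z t) ι → IsCurv (pull ι (F.rv z t)) ∧
      lam (pull ι (F.rv z t)) = F.ev z t F.lam := by
    intro z t ι hι
    have hh := hRP2 n (F.nv z t) ι (F.rv z t) hι ((hRIC n T F hF).2.2.2.2.2.1 z t)
    refine ⟨hh.1, ?_⟩
    rw [hh.2.2.2.2.1]
    unfold FB.lam FB.Ric FB.rv Ric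
    rw [map_smul, map_sum, smul_eq_mul]
    simp only [map_sum]
    ring
  have hINV' := hINV n hn a' b' p' c (2 * B) hG (by linarith) T F hF hRF bet hbH hbD
    (fun z t => (hbpos z t).le) hlam
  have hconc := hINV' ?_ ?_
  · intro z t ι hι
    have := hconc z t ι hι
    rwa [hbev] at this
  · -- near time zero
    obtain ⟨C, t0, hC0, ht0, ht0T, hC⟩ := bd0_unif F hBd
    obtain ⟨Cr, hCr⟩ : ∃ Cr : ℝ, Cr = ((n : ℝ) + 1) ^ 4 * C := ⟨_, rfl⟩
    obtain ⟨C', hC'⟩ : ∃ C' : ℝ, C' = 7 * n * Cr := ⟨_, rfl⟩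
    have hCr0 : 0 ≤ Cr := by rw [hCr]; positivity
    have hC'0 : 0 ≤ C' := by rw [hC']; positivity
    obtain ⟨K1, hK1⟩ : ∃ K1 : ℝ, K1 = ((n : ℝ) ^ 4 + n ^ 2 + n) * C' := ⟨_, rfl⟩
    have hK10 : 0 ≤ K1 := by rw [hK1]; positivity
    have hp1' : 0 < 1 - p' := by linarith
    refine ⟨min t0 ((1 - p') / (N * K1 + 1)), lt_min ht0 (by positivity),
      lt_of_le_of_lt (min_le_left _ _) ht0T, ?_⟩
    intro z t ht ι hι
    have ht1 : (t : ℝ) < t0 := lt_of_lt_of_le ht (min_le_left _ _)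
    have ht2 : (t : ℝ) < (1 - p') / (N * K1 + 1) := lt_of_lt_of_le ht (min_le_right _ _)
    have htp := htpos t
    have hr : ∀ i j k l, |pull ι (F.rv z t) i j k l| ≤ Cr := by
      rw [hCr]
      exact pull_le hι (hC z t ht1)
    have he : ∀ i j k l, |elli a' b' (pull ι (F.rv z t)) i j k l| ≤ C' := by
      rw [hC']
      exact elli_le hn ha hb hr
    have hcurv := (hpull z t ι hι).1
    have hcurv' : IsCurv (elli a' b' (pull ι (F.rv z t))) := (cEll a' b' _ hcurv).2.1
    -- size of the correction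
    have hβ : N * K1 < F.ev z t bet * (1 - p') := by
      rw [hbev]
      have h1 : (t : ℝ) * (N * K1 + 1) < 1 - p' := by
        rwa [lt_div_iff₀ (by positivity)] at ht2
      have h2 : N * K1 < (1 - p') / t := by
        rw [lt_div_iff₀ htp]
        nlinarith
      have h3 : (1 - p') / t ≤ 2 * B / t * (1 - p') := by
        rw [div_mul_eq_mul_div]
        apply div_le_div_of_nonneg_right _ htp.le
        nlinarith
      linarith
    have hβN : K1 < F.ev z t bet / N * (1 - p') := by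
      rw [div_mul_eq_mul_div, lt_div_iff₀ hN0]
      linarith
    have hβ0 : 0 < F.ev z t bet / N := div_pos (hbpos z t) hN0
    have hβ1 : K1 < F.ev z t bet / N := by
      have : F.ev z t bet / N * (1 - p') ≤ F.ev z t bet / N := by
        have := mul_nonneg hβ0.le hp
        linarith
      linarith
    refine ⟨hcurvadd _ _ hcurv, ?_, ?_⟩
    · intro u w hq
      rw [hqadd]
      have h1 := (abs_le.1 ((hRP4 n).2.2 _ C' hcurv' he u w)).1
      have h2 : (n : ℝ) ^ 4 * C' ≤ K1 := by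
        rw [hK1]
        have : 0 ≤ ((n : ℝ) ^ 2 + n) * C' := by positivity
        linarith
      have h3 : (n : ℝ) ^ 4 * C' * qf (Id4 n) u w < F.ev z t bet / N * qf (Id4 n) u w :=
        mul_lt_mul_of_pos_right (by linarith) hq
      linarith
    · intro v hv
      rw [hlamadd, hricadd]
      have hv0 := nrm_pos hv
      have h1 := (abs_le.1 (rq_le (ric_le he) v)).1
      have h2 := abs_le.1 (lam_le (by omega) he)
      have h3 : p' * lam (elli a' b' (pull ι (F.rv z t))) * nrm v ≤ n * C' * nrm v := by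
        apply mul_le_mul_of_nonneg_right _ hv0.le
        have h4 : p' * lam (elli a' b' (pull ι (F.rv z t))) ≤ p' * (n * C') :=
          mul_le_mul_of_nonneg_left h2.2 hp
        have h5 : p' * (n * C') ≤ 1 * (n * C') :=
          mul_le_mul_of_nonneg_right hp1.le (by positivity)
        linarith
      have h6 : (n : ℝ) ^ 2 * C' + n * C' ≤ K1 := by
        rw [hK1]
        have : 0 ≤ (n : ℝ) ^ 4 * C' := by positivity
        linarith
      have h7 : F.ev z t bet / N * (1 - p') ≤ F.ev z t bet / N * (1 - p') * ((n : ℝ) - 1) := by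
        have : 0 ≤ F.ev z t bet / N * (1 - p') := mul_nonneg hβ0.le hp1'.le
        nlinarith
      have h8 : ((n : ℝ) ^ 2 * C' + n * C') * nrm v
          < F.ev z t bet / N * (1 - p') * ((n : ℝ) - 1) * nrm v :=
        mul_lt_mul_of_pos_right (by linarith) hv0
      have e1 : (n : ℝ) * (n * C') * nrm v = (n : ℝ) ^ 2 * C' * nrm v := by ring
      rw [e1] at h1
      have e2 : F.ev z t bet / N * (1 - p') * ((n : ℝ) - 1) * nrm v
          = F.ev z t bet / N * (((n : ℝ) - 1) * nrm v)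
            - p' * (F.ev z t bet / N * ((n : ℝ) - 1)) * nrm v := by ring
      rw [e2] at h8
      have e3 : p' * (lam (elli a' b' (pull ι (F.rv z t))) + F.ev z t bet / N * ((n : ℝ) - 1))
          * nrm v = p' * lam (elli a' b' (pull ι (F.rv z t))) * nrm v
            + p' * (F.ev z t bet / N * ((n : ℝ) - 1)) * nrm v := by ring
      rw [e3]
      have e4 : ((n : ℝ) ^ 2 * C' + n * C') * nrm v
          = (n : ℝ) ^ 2 * C' * nrm v + n * C' * nrm v := by ring
      rw [e4] at h8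
      linarith
  · -- where the scalar curvature is small compared with the correction
    intro z t ι hι hle
    have htp := htpos t
    obtain ⟨β, hβ⟩ : ∃ β : ℝ, β = F.ev z t bet := ⟨_, rfl⟩
    have hβ0 : 0 < β := by rw [hβ]; exact hbpos z t
    have hβe : B / t = β / 2 := by
      rw [hβ, hbev]; ring
    rw [← hβ] at hle ⊢
    have hK0 := hK z t ι hι
    rw [hβe] at hK0
    have hlr := (hpull z t ι hι).2
    have hl0 : 0 < F.ev z t F.lam := hlam z t
    obtain ⟨r, hr⟩ : ∃ r : T4 n, r = pull ι (F.rv z t) := ⟨_, rfl⟩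
    rw [← hr] at hK0 hle hlr ⊢
    -- the scalar curvature of the smaller one
    have e1 : lam (r + (β / 2) • Id4 n) = lam r + β / 2 * ((n : ℝ) - 1) := by
      rw [n5, n6, lamI]
    have e2 : lam (r + β • Id4 n) = lam r + β * ((n : ℝ) - 1) := by
      rw [n5, n6, lamI]
    rw [li5] at hle
    have hNΛ : N ≤ 1 + 2 * ((n : ℝ) - 1) * Λ := by
      rw [hN]
      have : ((n : ℝ) - 1) * a' ≤ ((n : ℝ) - 1) * Λ :=
        mul_le_mul_of_nonneg_left haΛ (by linarith)
      linarith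
    have hNΛ0 : 0 < 1 + 2 * ((n : ℝ) - 1) * Λ := by linarith
    have hkey : c / (8 * n * (1 + 2 * ((n : ℝ) - 1) * Λ)) * lam (r + (β / 2) • Id4 n)
        ≤ β / 4 := by
      have h1 : lam (r + (β / 2) • Id4 n) ≤ lam (r + β • Id4 n) := by
        rw [e1, e2]
        have : 0 ≤ β * ((n : ℝ) - 1) := mul_nonneg hβ0.le (by linarith)
        linarith
      have h2 : c * lam (r + β • Id4 n) ≤ 2 * n * β * N := by
        rw [mul_div_assoc', div_le_iff₀ hN0] at hle
        exact hle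
      have h3 : 2 * n * β * N ≤ 2 * n * β * (1 + 2 * ((n : ℝ) - 1) * Λ) :=
        mul_le_mul_of_nonneg_left hNΛ (by positivity)
      have h4 : c * lam (r + (β / 2) • Id4 n) ≤ c * lam (r + β • Id4 n) :=
        mul_le_mul_of_nonneg_left h1 hc.le
      rw [div_mul_eq_mul_div, div_le_iff₀ (by positivity)]
      nlinarith
    have hS := hStep _ hK0 (β / 4) hkey (by positivity)
    have hfin := hstrict _ (β / 4) hS (by positivity)
    have e3 : r + (β / 2) • Id4 n + (β / 4) • Id4 n + (β / 4) • Id4 n = r + β • Id4 n := by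
      rw [add_assoc, add_assoc, ← add_smul, ← add_smul]
      congr 2
      ring
    rwa [e3] at hfin

end Pool.Agent.Helper47.RFn
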